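import Pool.Agent.TWD.GRP
import Pool.Agent.TWF.GRO

/-!
# TWD: `k B_n` is abelian over `ℚ`, `k` quadratic (helper11)
-/

set_option autoImplicit false

open NumberField

namespace Pool.Agent.TWD

open Pool.Agent.MU3 Pool.Agent.RI Pool.Agent.RID Pool.Agent.TWF

theorem ab_sup (E F : IntermediateField ℚ ℂ) [FiniteDimensional ℚ E] [FiniteDimensional ℚ F]
    (hE : IsGalois ℚ E) (hF : IsGalois ℚ F) (cE : ∀ a b : E ≃ₐ[ℚ] E, a * b = b * a)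
    (cF : ∀ a b : F ≃ₐ[ℚ] F, a * b = b * a) :
    IsGalois ℚ ↥(E ⊔ F) ∧ ∀ a b : ↥(E ⊔ F) ≃ₐ[ℚ] ↥(E ⊔ F), a * b = b * a := by
  have hnE : @Normal ℚ E _ _ (IntermediateField.algebra' E) := hE.to_normal
  have hnF : @Normal ℚ F _ _ (IntermediateField.algebra' F) := hF.to_normal
  have hnL : Normal ℚ ↥(E ⊔ F) := @IntermediateField.normal_sup ℚ ℂ _ _ _ E F hnE hnF
  have fdL : FiniteDimensional ℚ ↥(E ⊔ F) := IntermediateField.finiteDimensional_sup E F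
  have hgL : IsGalois ℚ ↥(E ⊔ F) := ⟨⟩
  refine ⟨hgL, fun a b => ?_⟩
  obtain ⟨r₁, -, p1⟩ := rst (le_sup_left : E ≤ E ⊔ F) hE.to_normal hnL
  obtain ⟨r₂, -, p2⟩ := rst (le_sup_right : F ≤ E ⊔ F) hF.to_normal hnL
  have key : ∀ ρ : ↥(E ⊔ F) ≃ₐ[ℚ] ↥(E ⊔ F), r₁ ρ = 1 → r₂ ρ = 1 → ρ = 1 := by
    intro ρ h1 h2
    let T : IntermediateField ℚ ↥(E ⊔ F) := IntermediateField.fixedField (Subgroup.zpowers ρ)
    have hmem : ∀ x : ↥(E ⊔ F), ρ x = x → x ∈ T := by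
      intro x hx g
      obtain ⟨g, i, rfl⟩ := g
      have h3 : ρ ∈ MulAction.stabilizer (↥(E ⊔ F) ≃ₐ[ℚ] ↥(E ⊔ F)) x := hx
      exact (Subgroup.zpow_mem _ h3 i :
        ρ ^ i ∈ MulAction.stabilizer (↥(E ⊔ F) ≃ₐ[ℚ] ↥(E ⊔ F)) x)
    have hET : E ≤ T.map (E ⊔ F).val := by
      intro x hx
      refine ⟨⟨x, (le_sup_left : E ≤ E ⊔ F) hx⟩, hmem _ ?_, rfl⟩
      have h3 := p1 ρ ⟨x, hx⟩
      rw [h1] at h3
      exact Subtype.ext h3.symm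
    have hFT : F ≤ T.map (E ⊔ F).val := by
      intro x hx
      refine ⟨⟨x, (le_sup_right : F ≤ E ⊔ F) hx⟩, hmem _ ?_, rfl⟩
      have h3 := p2 ρ ⟨x, hx⟩
      rw [h2] at h3
      exact Subtype.ext h3.symm
    ext x
    obtain ⟨y, hy, hyx⟩ := (sup_le hET hFT) x.2
    have hxy : y = x := Subtype.ext hyx
    have h4 := hy ⟨ρ, Subgroup.mem_zpowers ρ⟩
    rw [← hxy]
    exact congrArg Subtype.val h4
  have h1 : a * b * (b * a)⁻¹ = 1 := by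
    apply key
    · rw [map_mul, map_inv, map_mul, map_mul, cE (r₁ b), mul_inv_cancel]
    · rw [map_mul, map_inv, map_mul, map_mul, cF (r₂ b), mul_inv_cancel]
  exact mul_inv_eq_one.1 h1

/-- `k B_n` is abelian over `ℚ` -/
theorem ab_lay (l : ℕ) [Fact l.Prime] (k : IntermediateField ℚ ℂ) (h2 : Module.finrank ℚ k = 2)
    (n : ℕ) (B : IntermediateField ℚ ℂ) (hB : IsLayer l n B) :
    FiniteDimensional ℚ ↥(k ⊔ B) ∧ IsGalois ℚ ↥(k ⊔ B) ∧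
      ∀ a b : ↥(k ⊔ B) ≃ₐ[ℚ] ↥(k ⊔ B), a * b = b * a := by
  obtain ⟨fdB, hGB, -⟩ := LAY_thm l n B hB
  have hcyc : IsCyclic (B ≃ₐ[ℚ] B) := t_LAYC l n B hB
  have fdk : FiniteDimensional ℚ k := FiniteDimensional.of_finrank_pos (by omega)
  have hq : Algebra.IsQuadraticExtension ℚ k := ⟨h2⟩
  have hgk : IsGalois ℚ k := inferInstance
  have hck : IsCyclic (k ≃ₐ[ℚ] k) := inferInstance
  have ck : ∀ a b : k ≃ₐ[ℚ] k, a * b = b * a := by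
    let _ := IsCyclic.commGroup (α := k ≃ₐ[ℚ] k)
    exact fun a b => mul_comm a b
  have cB : ∀ a b : B ≃ₐ[ℚ] B, a * b = b * a := by
    let _ := IsCyclic.commGroup (α := B ≃ₐ[ℚ] B)
    exact fun a b => mul_comm a b
  obtain ⟨h1, h2⟩ := ab_sup k B hgk hGB ck cB
  exact ⟨IntermediateField.finiteDimensional_sup k B, h1, h2⟩

end Pool.Agent.TWD
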