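import Mathlib

/-!
# TWD: orders modulo powers of `l` (helper11)
-/

set_option autoImplicit false

namespace Pool.Agent.TWD

/-- `v_l(x^(l^t) - 1) = v_l(x - 1) + t` -/
theorem lte (l x t : ℕ) (hl : l.Prime) (hx : 1 < x) (h1 : l ∣ x - 1) (h2 : l = 2 → 4 ∣ x - 1) :
    padicValNat l (x ^ (l ^ t) - 1) = padicValNat l (x - 1) + t := by
  have : Fact l.Prime := ⟨hl⟩
  have hlx : ¬ l ∣ x := by
    intro h
    have h3 : l ∣ x - (x - 1) := Nat.dvd_sub h h1
    have h4 : x - (x - 1) = 1 := by omega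
    rw [h4] at h3
    exact hl.one_lt.ne' (Nat.dvd_one.1 h3)
  rcases hl.eq_two_or_odd' with rfl | hodd
  · rcases Nat.eq_zero_or_pos t with rfl | ht
    · simp
    · have h3 := padicValNat.pow_two_sub_pow (x := x) (y := 1) hx h1 hlx
        (n := 2 ^ t) (pow_ne_zero _ two_ne_zero)
        ((Nat.even_pow.2 ⟨even_two, ht.ne'⟩))
      rw [one_pow, padicValNat.prime_pow] at h3
      obtain ⟨c, hc⟩ := h2 rfl
      have h4 : padicValNat 2 (x + 1) = 1 := by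
        have h5 : x + 1 = 2 * (2 * c + 1) := by omega
        rw [h5, padicValNat.mul two_ne_zero (by omega), padicValNat.self one_lt_two,
          padicValNat.eq_zero_of_not_dvd (by omega)]
      omega
  · have h3 := padicValNat.pow_sub_pow (p := l) hodd (x := x) (y := 1) hx h1 hlx
      (n := l ^ t) (pow_ne_zero _ hl.ne_zero)
    rw [one_pow, padicValNat.prime_pow] at h3
    exact h3

theorem arith (l q s N m : ℕ) (hl : l.Prime) (hq : q.Prime) (hql : q ≠ l) (hm : N + 2 ≤ m)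
    (h : q ^ ((l - 1) * l ^ (s + (m - N - 2))) ≡ 1 [MOD l ^ m]) :
    q ^ (2 * (l - 1) * l ^ s) ≡ 1 [MOD l ^ (N + 2)] := by
  have : Fact l.Prime := ⟨hl⟩
  have hcop : Nat.Coprime q l := (Nat.coprime_primes hq hl).2 hql
  have hfer : q ^ (l - 1) ≡ 1 [MOD l] := by
    have h1 := Nat.ModEq.pow_totient hcop
    rwa [Nat.totient_prime hl] at h1
  have hl1 : 1 ≤ l - 1 := by have := hl.two_le; omega
  have hx1 : 1 < q ^ (2 * (l - 1)) := Nat.one_lt_pow (by omega) hq.one_lt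
  have hd1 : l ∣ q ^ (2 * (l - 1)) - 1 := by
    have h1 : q ^ (2 * (l - 1)) ≡ 1 [MOD l] := by
      rw [mul_comm, pow_mul]
      have h2 := hfer.pow 2
      rwa [one_pow] at h2
    exact (Nat.modEq_iff_dvd' hx1.le).1 h1.symm
  have hd2 : l = 2 → 4 ∣ q ^ (2 * (l - 1)) - 1 := by
    rintro rfl
    have hodd : Odd q := hq.odd_of_ne_two hql
    obtain ⟨c, rfl⟩ := hodd
    refine ⟨c * (c + 1), ?_⟩
    have h3 : (2 * c + 1) ^ (2 * (2 - 1)) = 4 * (c * (c + 1)) + 1 := by ring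
    rw [h3]
    omega
  have hpow : q ^ (2 * (l - 1) * l ^ s) = (q ^ (2 * (l - 1))) ^ (l ^ s) := by rw [pow_mul]
  have h3 : (q ^ (2 * (l - 1))) ^ (l ^ (s + (m - N - 2))) ≡ 1 [MOD l ^ m] := by
    have h4 := h.pow 2
    rw [one_pow, ← pow_mul] at h4
    rw [← pow_mul]
    have h5 : 2 * (l - 1) * l ^ (s + (m - N - 2)) = (l - 1) * l ^ (s + (m - N - 2)) * 2 := by ring
    rw [h5]
    exact h4
  have hne : ∀ t : ℕ, (q ^ (2 * (l - 1))) ^ (l ^ t) - 1 ≠ 0 := by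
    intro t
    have h6 : 1 < (q ^ (2 * (l - 1))) ^ (l ^ t) :=
      Nat.one_lt_pow (pow_ne_zero _ hl.ne_zero) hx1
    omega
  have hle : ∀ t : ℕ, 1 ≤ (q ^ (2 * (l - 1))) ^ (l ^ t) := fun t =>
    Nat.one_le_pow _ _ (by omega)
  have h4 : l ^ m ∣ (q ^ (2 * (l - 1))) ^ (l ^ (s + (m - N - 2))) - 1 :=
    (Nat.modEq_iff_dvd' (hle _)).1 h3.symm
  have h5 := (padicValNat_dvd_iff_le (hne _)).1 h4
  rw [lte l _ _ hl hx1 hd1 hd2] at h5
  rw [hpow]
  apply Nat.ModEq.symm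
  rw [Nat.modEq_iff_dvd' (hle _), padicValNat_dvd_iff_le (hne _), lte l _ _ hl hx1 hd1 hd2]
  omega

end Pool.Agent.TWD
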