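import Pool.Agent.RI.NSF
import Pool.Agent.RI.MAINB
import Pool.Agent.RI.Stmts2

/-!
# TWD: the Frobenius automorphism and roots of unity; nonsplit primes (helper11)
-/

set_option autoImplicit false

open NumberField
open scoped nonZeroDivisors Pointwise

namespace Pool.Agent.TWD

open Pool.Agent.RI

/-- a Frobenius automorphism at a prime above `q` raises the roots of unity of order prime to `q` to
the power `q` -/
theorem frob (L : IntermediateField ℚ ℂ) [FiniteDimensional ℚ L] [IsGalois ℚ L] (q : ℕ)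
    (hq : q.Prime) : ∃ (P : Ideal (𝓞 L)) (g : L ≃ₐ[ℚ] L), P.IsPrime ∧ (q : 𝓞 L) ∈ P ∧
      g ∈ MulAction.stabilizer (L ≃ₐ[ℚ] L) P ∧
      ∀ (ζ : L) (N : ℕ), N ≠ 0 → ¬ q ∣ N → ζ ^ N = 1 → g ζ = ζ ^ q := by
  have hmax : (Ideal.span {(q : ℤ)}).IsMaximal :=
    (Ideal.span_singleton_prime (by exact_mod_cast hq.ne_zero)).mpr
      (Nat.prime_iff_prime_int.mp hq) |>.isMaximal (by
        rw [Ne, Ideal.span_singleton_eq_bot]
        exact_mod_cast hq.ne_zero)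
  obtain ⟨⟨P, hP, hPo⟩⟩ := Ideal.nonempty_primesOver (S := 𝓞 L) (Ideal.span {(q : ℤ)})
  have hqP : (q : 𝓞 L) ∈ P := by
    have h1 : (q : ℤ) ∈ P.under ℤ := by
      rw [← hPo.over]
      exact Ideal.mem_span_singleton_self _
    rw [Ideal.mem_comap] at h1
    simpa using h1
  have hP0 : P ≠ ⊥ := by
    rintro rfl
    rw [Ideal.mem_bot] at hqP
    exact hq.ne_zero (by exact_mod_cast hqP)
  have hfin : Finite (𝓞 L ⧸ P) := Ideal.finiteQuotientOfFreeOfNeBot P hP0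
  obtain ⟨g, hg⟩ := IsArithFrobAt.exists_of_isInvariant (R := ℤ) (G := L ≃ₐ[ℚ] L) (Q := P)
  refine ⟨P, g, hP, hqP, hg.mem_stabilizer, fun ζ N hN hqN hζ => ?_⟩
  have hint : IsIntegral ℤ ζ := IsIntegral.of_pow (Nat.pos_of_ne_zero hN)
    (by rw [hζ]; exact isIntegral_one)
  have hNP : (N : 𝓞 L) ∉ P := by
    intro h
    obtain ⟨u, v, huv⟩ : IsCoprime (q : ℤ) (N : ℤ) :=
      Nat.isCoprime_iff_coprime.2 ((Nat.Prime.coprime_iff_not_dvd hq).2 hqN)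
    apply hP.ne_top
    rw [Ideal.eq_top_iff_one]
    have h1 : (u : 𝓞 L) * q + (v : 𝓞 L) * N = 1 := by exact_mod_cast huv
    rw [← h1]
    exact P.add_mem (P.mul_mem_left _ hqP) (P.mul_mem_left _ h)
  have h1 := AlgHom.IsArithFrobAt.apply_of_pow_eq_one hg (ζ := (⟨ζ, hint⟩ : 𝓞 L)) (m := N)
    (by
      apply RingOfIntegers.ext
      exact hζ) hNP
  have hcard : Nat.card (ℤ ⧸ P.under ℤ) = q := by
    rw [← hPo.over]
    have h2 := Int.quotientSpanNatEquivZMod q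
    rw [Nat.card_congr h2.toEquiv]
    exact Nat.card_zmod q
  rw [hcard] at h1
  exact congrArg (fun z : 𝓞 L => (z : L)) h1

theorem nsf_mem (L : Type) [Field L] [NumberField L] [IsGalois ℚ L]
    (F K : IntermediateField ℚ L) (σ : L ≃ₐ[ℚ] L) (q : ℕ) (P : Ideal (𝓞 L)) (hq : q.Prime)
    (hP : P.IsPrime) (hqP : (q : 𝓞 L) ∈ P) (hD : σ ∈ MulAction.stabilizer (L ≃ₐ[ℚ] L) P)
    (hyp : ∀ τ ρ : L ≃ₐ[ℚ] L, ρ ∈ F.fixingSubgroup →
      ∃ j : ℤ, ρ * (τ * σ ^ j * τ⁻¹)⁻¹ ∈ K.fixingSubgroup)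
    (Q₁ Q₂ : Ideal (𝓞 L)) (h1 : Q₁.IsPrime) (h2 : Q₂.IsPrime) (hq1 : (q : 𝓞 L) ∈ Q₁)
    (_hq2 : (q : 𝓞 L) ∈ Q₂) (hF : ∀ x : 𝓞 L, (x : L) ∈ F → (x ∈ Q₁ ↔ x ∈ Q₂)) :
    ∀ x : 𝓞 L, (x : L) ∈ K → (x ∈ Q₁ ↔ x ∈ Q₂) := by
  intro x hx
  obtain ⟨τ, hτ⟩ := NSF.trans_Q hq hP h1 hqP hq1
  obtain ⟨ρ, hρ, hρQ⟩ := NSF.trans_F F h1 h2 hF
  obtain ⟨j, hj⟩ := hyp τ ρ hρ
  set κ := ρ * (τ * σ ^ j * τ⁻¹)⁻¹ with hκ
  have e1 : ρ = κ * (τ * σ ^ j * τ⁻¹) := by rw [hκ]; group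
  have hs : σ ^ j • P = P := Subgroup.zpow_mem _ hD j
  have e2 : Q₂ = κ • Q₁ := by
    rw [hρQ, e1, hτ]
    simp only [mul_smul, inv_smul_smul, hs]
  have e3 : κ⁻¹ • x = x := by
    have h3 : κ⁻¹ ∈ K.fixingSubgroup := inv_mem hj
    rw [IntermediateField.mem_fixingSubgroup_iff] at h3
    apply RingOfIntegers.ext
    exact h3 x hx
  rw [e2, Ideal.mem_pointwise_smul_iff_inv_smul_mem, e3]

/-- a good element of the decomposition group -/
theorem nonsplit_mem {F K L : IntermediateField ℚ ℂ} [FiniteDimensional ℚ L]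
    [IsGalois ℚ L] (hFK : F ≤ K) (hKL : K ≤ L) (σ : L ≃ₐ[ℚ] L) (hσ : Good F K L σ)
    (q : ℕ) (hq : q.Prime) (P : Ideal (𝓞 L)) (hP : P.IsPrime) (hqP : (q : 𝓞 L) ∈ P)
    (hst : σ ∈ MulAction.stabilizer (L ≃ₐ[ℚ] L) P) : Nonsplit q hFK := by
  intro P₁ P₂ hP₁ hP₂ hq₁ hq₂ h12
  have hfK : FiniteDimensional ℚ K := FiniteDimensional.of_injective
    (IntermediateField.inclusion hKL).toLinearMap
    (IntermediateField.inclusion hKL).toRingHom.injective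
  let : Algebra K L := algC hKL
  obtain ⟨⟨Q₁, hQ₁, hQo₁⟩⟩ := Ideal.nonempty_primesOver (S := 𝓞 L) P₁
  obtain ⟨⟨Q₂, hQ₂, hQo₂⟩⟩ := Ideal.nonempty_primesOver (S := 𝓞 L) P₂
  have key := nsf_mem L (MAINB.inL F L) (MAINB.inL K L) σ q P hq hP hqP hst (by
    intro τ ρ hρ
    rw [IntermediateField.mem_fixingSubgroup_iff] at hρ
    obtain ⟨j, hj⟩ := hσ τ ρ (fun x hx => hρ x hx)
    exact ⟨j, by
      rw [IntermediateField.mem_fixingSubgroup_iff]
      exact fun x hx => hj x hx⟩) Q₁ Q₂ hQ₁ hQ₂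
      (by
        have : (q : 𝓞 K) ∈ Q₁.under (𝓞 K) := hQo₁.over ▸ hq₁
        rwa [Ideal.mem_comap, map_natCast] at this)
      (by
        have : (q : 𝓞 K) ∈ Q₂.under (𝓞 K) := hQo₂.over ▸ hq₂
        rwa [Ideal.mem_comap, map_natCast] at this)
      (by
        intro x hx
        -- x comes from F
        have hint : IsIntegral ℤ (⟨((x : L) : ℂ), hx⟩ : F) := by
          have h1 := x.2
          have h2 : IsIntegral ℤ ((x : L) : ℂ) := h1.map L.val.toRingHom.toIntAlgHom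
          exact (isIntegral_algebraMap_iff (R := ℤ) (A := F) (B := ℂ)
            (algebraMap F ℂ).injective).1 h2
        let y : 𝓞 F := ⟨⟨((x : L) : ℂ), hx⟩, hint⟩
        have hy : algebraMap (𝓞 K) (𝓞 L) (RingOfIntegers.mapRingHom
            (IntermediateField.inclusion hFK : F →+* K) y) = x := rfl
        have h1 : x ∈ Q₁ ↔ y ∈ P₁.comap (RingOfIntegers.mapRingHom
            (IntermediateField.inclusion hFK : F →+* K)) := by
          rw [Ideal.mem_comap, hQo₁.over, Ideal.mem_comap, hy]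
        have h2 : x ∈ Q₂ ↔ y ∈ P₂.comap (RingOfIntegers.mapRingHom
            (IntermediateField.inclusion hFK : F →+* K)) := by
          rw [Ideal.mem_comap, hQo₂.over, Ideal.mem_comap, hy]
        rw [h1, h2, h12])
  ext z
  have h := key (algebraMap (𝓞 K) (𝓞 L) z) (by
    show (((z : K) : ℂ)) ∈ K
    exact (z : K).2)
  rw [hQo₁.over, hQo₂.over, Ideal.mem_comap, Ideal.mem_comap]
  exact h

end Pool.Agent.TWD
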