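import Pool.Agent.TWD.GOD1
import Pool.Agent.TWD.FRB
import Pool.Agent.TWD.ARI
import Pool.Agent.RI.LAY

/-!
# TWD: an explicit condition under which no prime above `q` splits in `K B_n / K B_N` (helper11)
-/

set_option autoImplicit false

open NumberField
open scoped nonZeroDivisors Pointwise

namespace Pool.Agent.TWD

open Pool.Agent.MU3 Pool.Agent.RI Pool.Agent.RID Pool.Agent.TWF

/-- the field of the roots of unity of order dividing `l^m` -/
noncomputable def Cy (l m : ℕ) : IntermediateField ℚ ℂ :=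
  IntermediateField.adjoin ℚ {z : ℂ | z ^ (l ^ m) = 1}

theorem cy_data (l m : ℕ) (hl : l.Prime) (hm : 1 ≤ m) :
    FiniteDimensional ℚ (Cy l m) ∧ IsGalois ℚ (Cy l m) ∧
      Module.finrank ℚ (Cy l m) = l ^ (m - 1) * (l - 1) := by
  have hN : l ^ m ≠ 0 := pow_ne_zero m hl.ne_zero
  have h := IntermediateField.isCyclotomicExtension_adjoin_of_exists_isPrimitiveRoot
    ({l ^ m} : Set ℕ) ℚ ℂ (fun n hn _ => by
      rw [Set.mem_singleton_iff] at hn
      rw [hn]
      exact ⟨_, Complex.isPrimitiveRoot_exp _ hN⟩)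
  have hset : {x : ℂ | ∃ n ∈ ({l ^ m} : Set ℕ), n ≠ 0 ∧ x ^ n = 1} = {z : ℂ | z ^ (l ^ m) = 1} := by
    ext x
    constructor
    · rintro ⟨n, hn, _, hx⟩
      rw [Set.mem_singleton_iff] at hn
      rw [hn] at hx
      exact hx
    · intro hx
      exact ⟨l ^ m, rfl, hN, hx⟩
  rw [hset] at h
  have h' : IsCyclotomicExtension {l ^ m} ℚ (Cy l m) := h
  have hNZ : NeZero (l ^ m) := ⟨hN⟩
  have hfd : FiniteDimensional ℚ (Cy l m) := IsCyclotomicExtension.finiteDimensional {l ^ m} ℚ _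
  have hG : IsGalois ℚ (Cy l m) := IsCyclotomicExtension.isGalois {l ^ m} ℚ _
  refine ⟨hfd, hG, ?_⟩
  have hfr := IsCyclotomicExtension.finrank (K := ℚ) (n := l ^ m) (Cy l m)
    (Polynomial.cyclotomic.irreducible_rat (Nat.pos_of_ne_zero hN))
  rw [hfr, Nat.totient_prime_pow hl hm]

/-- If the order of `q` modulo `l^(N+2)` is large, no prime above `q` splits in `K B_n / K B_N`. -/
theorem nonsplit_exp (l : ℕ) [Fact l.Prime] (K : IntermediateField ℚ ℂ) [FiniteDimensional ℚ K]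
    (B : ℕ → IntermediateField ℚ ℂ) (hlay : ∀ n, IsLayer l n (B n)) (hmono : Monotone B) (s : ℕ)
    (hs : ¬ l ^ (s + 1) ∣ Module.finrank ℚ (IntermediateField.normalClosure ℚ K ℂ))
    (q : ℕ) (hq : q.Prime) (hql : q ≠ l) (N n : ℕ)
    (hord : ¬ q ^ (2 * (l - 1) * l ^ s) ≡ 1 [MOD l ^ (N + 2)]) (hn : N + 1 ≤ n)
    (hle : K ⊔ B N ≤ K ⊔ B n) : Nonsplit q hle := by
  have hl : l.Prime := Fact.out
  set M : IntermediateField ℚ ℂ := IntermediateField.normalClosure ℚ K ℂ with hMdef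
  have hKM : K ≤ M := IntermediateField.le_normalClosure K
  have fdM : FiniteDimensional ℚ M := inferInstance
  have hnc : IsNormalClosure ℚ K M :=
    Algebra.IsAlgebraic.isNormalClosure_normalClosure (fun x => IsAlgClosed.splits _)
  have hnM : Normal ℚ M := hnc.normal (K := K)
  have hM0 : Module.finrank ℚ M ≠ 0 := Module.finrank_pos.ne'
  obtain ⟨s', u, hu, hMu⟩ := Nat.exists_eq_pow_mul_and_not_dvd hM0 l hl.ne_one
  have hs' : s' ≤ s := by
    by_contra h
    push Not at h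
    apply hs
    rw [hMu]
    exact (pow_dvd_pow l h).mul_right u
  -- the level of the roots of unity
  obtain ⟨hdeg, hreal, m₀, hle₀⟩ := hlay n
  set m : ℕ := m₀ + N + n + 2 with hmdef
  have hBC : B n ≤ Cy l m := by
    refine hle₀.trans ?_
    unfold Cy
    apply IntermediateField.adjoin.mono
    intro z hz
    have hz' : z ^ (l ^ m₀) = 1 := hz
    obtain ⟨c, hc⟩ := pow_dvd_pow l (show m₀ ≤ m by omega)
    show z ^ (l ^ m) = 1
    rw [hc, pow_mul, hz', one_pow]
  obtain ⟨fdC, hGC, hfC⟩ := cy_data l m hl (by omega)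
  have hnC : Normal ℚ (Cy l m) := hGC.to_normal
  set L : IntermediateField ℚ ℂ := M ⊔ Cy l m with hLdef
  have fdL : FiniteDimensional ℚ L := IntermediateField.finiteDimensional_sup M (Cy l m)
  have hnM' : @Normal ℚ M _ _ (IntermediateField.algebra' M) := hnM
  have hnC' : @Normal ℚ (Cy l m) _ _ (IntermediateField.algebra' (Cy l m)) := hnC
  have hnL : Normal ℚ L := @IntermediateField.normal_sup ℚ ℂ _ _ _ M (Cy l m) hnM' hnC'
  have hgL : IsGalois ℚ L := ⟨⟩
  have hML : M ≤ L := le_sup_left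
  have hCL : Cy l m ≤ L := le_sup_right
  have hBL : B n ≤ L := hBC.trans hCL
  obtain ⟨P, g, hP, hqP, hst, hfrob⟩ := frob L q hq
  refine nonsplit_mem hle (sup_le (hKM.trans hML) hBL) g ?_ q hq P hP hqP hst
  refine good_crit l K B hlay hmono N n s' u hn hu hMu L hML hBL g ?_
  by_contra hall
  push Not at hall
  apply hord
  -- the restriction to the cyclotomic field
  obtain ⟨r, -, pr⟩ := rst hCL hnC hnL
  have hpow : (r (g ^ (l ^ (s' + (n - N - 1))))) ^ (l ^ (m - 1 - n) * (l - 1)) = 1 := by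
    refine pow_deg (B := B n) (B' := Cy l m) hBC hGC _ ?_ _ ?_
    · rw [hfC, (hlay n).1, ← mul_assoc, ← pow_add]
      congr 2
      omega
    · intro x hx
      apply Subtype.ext
      rw [pr, hall _ hx]
  -- a primitive root of unity
  have hprim := Complex.isPrimitiveRoot_exp (l ^ m) (pow_ne_zero m hl.ne_zero)
  set ζ : ℂ := Complex.exp (2 * Real.pi * Complex.I / ((l ^ m : ℕ) : ℂ)) with hζ
  have hζC : ζ ∈ Cy l m := IntermediateField.subset_adjoin ℚ _ hprim.pow_eq_one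
  have hgz : ∀ z : L, z ^ (l ^ m) = 1 → g z = z ^ q := fun z hz =>
    hfrob z (l ^ m) (pow_ne_zero m hl.ne_zero) (fun h =>
      hql ((Nat.prime_dvd_prime_iff_eq hq hl).1 (hq.dvd_of_dvd_pow h))) hz
  have hgj : ∀ (j : ℕ) (z : L), z ^ (l ^ m) = 1 → (g ^ j) z = z ^ (q ^ j) := by
    intro j
    induction j with
    | zero => intro z _; simp
    | succ j ih =>
      intro z hz
      rw [pow_succ, AlgEquiv.mul_apply, hgz z hz, ih (z ^ q) (by
        rw [← pow_mul, mul_comm, pow_mul, hz, one_pow]), ← pow_mul, pow_succ, mul_comm]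
  have hE : (l ^ (s' + (n - N - 1))) * (l ^ (m - 1 - n) * (l - 1)) =
      (l - 1) * l ^ (s' + (m - N - 2)) := by
    rw [← mul_assoc, ← pow_add, mul_comm]
    congr 2
    omega
  have hfix : (g ^ ((l - 1) * l ^ (s' + (m - N - 2)))) ⟨ζ, hCL hζC⟩ = ⟨ζ, hCL hζC⟩ := by
    have h1 := pr (g ^ ((l - 1) * l ^ (s' + (m - N - 2)))) ⟨ζ, hζC⟩
    rw [← hE, pow_mul, map_pow, hpow] at h1
    rw [← hE, pow_mul]
    exact Subtype.ext h1.symm
  have hz1 : (⟨ζ, hCL hζC⟩ : L) ^ (l ^ m) = 1 := Subtype.ext hprim.pow_eq_one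
  rw [hgj _ _ hz1] at hfix
  have h2 : ζ ^ (q ^ ((l - 1) * l ^ (s' + (m - N - 2)))) = ζ ^ 1 := by
    rw [pow_one]
    exact congrArg Subtype.val hfix
  have hmod : q ^ ((l - 1) * l ^ (s' + (m - N - 2))) ≡ 1 [MOD l ^ m] := by
    have hpos : 1 ≤ q ^ ((l - 1) * l ^ (s' + (m - N - 2))) := Nat.one_le_pow _ _ hq.pos
    have hζ0 : ζ ≠ 0 := Complex.exp_ne_zero _
    have h3 : ζ ^ (q ^ ((l - 1) * l ^ (s' + (m - N - 2))) - 1) = 1 := by
      have h4 : ζ ^ (q ^ ((l - 1) * l ^ (s' + (m - N - 2))) - 1) * ζ = 1 * ζ := by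
        rw [← pow_succ, Nat.sub_add_cancel hpos, h2, pow_one, one_mul]
      exact mul_right_cancel₀ hζ0 h4
    exact ((Nat.modEq_iff_dvd' hpos).2 (hprim.dvd_of_pow_eq_one _ h3)).symm
  have h4 := arith l q s' N m hl hq hql (by omega) hmod
  -- from `s'` to `s`
  obtain ⟨c, hc⟩ := pow_dvd_pow l hs'
  have h5 := h4.pow c
  rw [one_pow, ← pow_mul, mul_assoc, ← hc] at h5
  exact h5

end Pool.Agent.TWD
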