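import Pool.Agent.TWD.Defs
import Pool.Agent.TWD.EXP
import Pool.Agent.TWF.END1
import Pool.Agent.RI.FinalB
import Pool.Agent.RI.CL
import Pool.Agent.RI.BASE

/-!
# TWD: the primes for which the class numbers of the fields `L ≤ K B_n` and `L ∩ K B_N` agree in all
layers of the cyclotomic `ℤ_p`-extensions (helper11)
-/

set_option autoImplicit false

open NumberField IsDedekindDomain Finset
open scoped nonZeroDivisors Pointwise

namespace Pool.Agent.TWD

open Pool.Agent.MU3 Pool.Agent.RI Pool.Agent.RID Pool.Agent.TWF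

/-- if `p` divides neither `h(K)` nor `[K : F]` then `v_p h(K) = v_p h(F)` -/
theorem cl_of_ndvd (p : ℕ) [hp : Fact p.Prime] {F K : IntermediateField ℚ ℂ}
    [FiniteDimensional ℚ K] (h : F ≤ K) (hg : IsGalois F (IntermediateField.extendScalars h))
    (hd : ¬ p ∣ Module.finrank F (IntermediateField.extendScalars h)) (hK : ¬ p ∣ classNo K) :
    padicValNat p (classNo K) = padicValNat p (classNo F) := by
  have hF : FiniteDimensional ℚ F := BASE.finDim_of_le h
  letI := algC h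
  have hgal : IsGalois F K := (isGalois_algC h).mpr hg
  have hcop : (Module.finrank F K).Coprime p := by
    have h1 := finrank_algC h
    rw [Nat.coprime_comm, hp.out.coprime_iff_not_dvd]
    intro h2
    apply hd
    rw [← h1]
    exact h2
  rw [BASE.classNo_eq K, BASE.classNo_eq F, CL_thm p F K hcop]
  intro c _
  refine ⟨Nat.card (J K ⧸ (prin (K := K)).range), ?_, ?_⟩
  · rw [← CL.classNumber_eq, ← BASE.classNo_eq, Nat.coprime_comm, hp.out.coprime_iff_not_dvd]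
    exact hK
  · have h1 : (QuotientGroup.mk c : J K ⧸ (prin (K := K)).range) ^
        Nat.card (J K ⧸ (prin (K := K)).range) = 1 := pow_card_eq_one'
    rw [← QuotientGroup.mk_pow, QuotientGroup.eq_one_iff] at h1
    obtain ⟨x, hx⟩ := h1
    exact ⟨x, hx.symm⟩

/-- as `end1`, with the hypothesis that no prime above `p` splits in `K B_n / K B_N` -/
theorem end1' (p l : ℕ) [Fact p.Prime] [Fact l.Prime] (hpl : p ≠ l)
    (k K : IntermediateField ℚ ℂ) (B : ℕ → IntermediateField ℚ ℂ)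
    [FiniteDimensional ℚ K] [∀ n, FiniteDimensional ℚ ↥(K ⊔ B n)] (hB : Twr l k K B)
    (n n' : ℕ) (hnn : n ≤ n') (hle : K ⊔ B n ≤ K ⊔ B n') (h1 : Nonsplit p hle)
    (L : IntermediateField ℚ ℂ) (hkL : k ≤ L) (hL : L ≤ K ⊔ B n')
    (hcl : padicValNat p (classNo L) = padicValNat p (classNo (L ⊓ (K ⊔ B n))) ∨
      ¬ p ∣ classNo L) : Same p L (L ⊓ (K ⊔ B n)) := by
  intro m Q hQ
  have hFL : L ⊓ (K ⊔ B n) ≤ L := inf_le_left
  have hFA : L ⊓ (K ⊔ B n) ≤ K ⊔ B n := inf_le_right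
  have hkF : k ≤ L ⊓ (K ⊔ B n) := le_inf hkL (hB.hk.trans le_sup_left)
  have hkC : k ≤ K ⊔ B n' := hB.hk.trans le_sup_left
  have fdL : FiniteDimensional ℚ L := FiniteDimensional.of_injective
    (IntermediateField.inclusion hL).toLinearMap
    (IntermediateField.inclusion hL).toRingHom.injective
  have fdF : FiniteDimensional ℚ ↥(L ⊓ (K ⊔ B n)) := FiniteDimensional.of_injective
    (IntermediateField.inclusion hFL).toLinearMap
    (IntermediateField.inclusion hFL).toRingHom.injective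
  -- `C / k` is abelian, so `L / k` is Galois
  have hgal : IsGalois k (IntermediateField.extendScalars hkC) ∧
      ∀ σ τ : (IntermediateField.extendScalars hkC) ≃ₐ[k] (IntermediateField.extendScalars hkC),
        σ * τ = τ * σ := by
    obtain ⟨g1, g2⟩ := gal_ab l k K B hB n' hkC
    let _ : Algebra k ↥(K ⊔ B n') := algC hkC
    refine ⟨(isGalois_algC hkC).1 g1, fun σ τ => ?_⟩
    have h1 := g2 ((extEquiv hkC).autCongr σ) ((extEquiv hkC).autCongr τ)
    rw [← map_mul, ← map_mul] at h1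
    exact (extEquiv hkC).autCongr.injective h1
  have abC : IsAbelianGalois k (IntermediateField.extendScalars hkC) :=
    { toIsGalois := hgal.1
      is_comm := ⟨fun σ τ => hgal.2 σ τ⟩ }
  have hleL : IntermediateField.extendScalars hkL ≤ IntermediateField.extendScalars hkC :=
    fun x hx => hL hx
  have abL : IsAbelianGalois k (IntermediateField.extendScalars hkL) :=
    IsAbelianGalois.of_algHom (IntermediateField.inclusion hleL)
  -- the algebras
  let i1 : Algebra ↥(L ⊓ (K ⊔ B n)) L := algC hFL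
  let i2 : Algebra ↥(L ⊓ (K ⊔ B n)) ↥(K ⊔ B n) := algC hFA
  let i3 : Algebra ↥(K ⊔ B n) ↥(K ⊔ B n') := algC hle
  let i4 : Algebra L ↥(K ⊔ B n') := algC hL
  let i5 : Algebra ↥(L ⊓ (K ⊔ B n)) ↥(K ⊔ B n') := algC (hFL.trans hL)
  let i6 : Algebra k L := algC hkL
  let i7 : Algebra k ↥(L ⊓ (K ⊔ B n)) := algC hkF
  let i8 : Algebra k ↥(K ⊔ B n) := algC (hB.hk.trans le_sup_left)
  let i9 : Algebra k ↥(K ⊔ B n') := algC hkC
  have t1 : IsScalarTower ↥(L ⊓ (K ⊔ B n)) L ↥(K ⊔ B n') := towerC hFL hL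
  have t2 : IsScalarTower ↥(L ⊓ (K ⊔ B n)) ↥(K ⊔ B n) ↥(K ⊔ B n') := towerC hFA hle
  have t3 : IsScalarTower k ↥(L ⊓ (K ⊔ B n)) L := towerC hkF hFL
  have t4 : IsScalarTower k ↥(K ⊔ B n) ↥(K ⊔ B n') :=
    towerC (hB.hk.trans le_sup_left) hle
  have gL : IsGalois k L := (isGalois_algC hkL).2 abL.toIsGalois
  have gC : IsGalois k ↥(K ⊔ B n') := (isGalois_algC hkC).2 hgal.1
  have gLF : IsGalois ↥(L ⊓ (K ⊔ B n)) L := IsGalois.tower_top_of_isGalois k _ _
  have gCA : IsGalois ↥(K ⊔ B n) ↥(K ⊔ B n') := IsGalois.tower_top_of_isGalois k _ _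
  have hint : ∀ x : L, ∀ a : ↥(K ⊔ B n), algebraMap L ↥(K ⊔ B n') x =
      algebraMap ↥(K ⊔ B n) ↥(K ⊔ B n') a →
      ∃ y : ↥(L ⊓ (K ⊔ B n)), algebraMap ↥(L ⊓ (K ⊔ B n)) L y = x := by
    intro x a hxa
    have h1 : (x : ℂ) = (a : ℂ) := congrArg Subtype.val hxa
    exact ⟨⟨(x : ℂ), x.2, h1 ▸ a.2⟩, rfl⟩
  -- the degree
  have hd : ¬ p ∣ Module.finrank ↥(L ⊓ (K ⊔ B n)) (IntermediateField.extendScalars hFL) := by
    intro hp
    have h1 : Module.finrank ↥(K ⊔ B n) (IntermediateField.extendScalars hle) ∣ l ^ n' :=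
      deg_dvd l K B hB.lay hB.mono n n' hnn hle
    have fLF : FiniteDimensional ↥(L ⊓ (K ⊔ B n)) L :=
      Module.Finite.of_restrictScalars_finite ℚ ↥(L ⊓ (K ⊔ B n)) L
    have fCA : FiniteDimensional ↥(K ⊔ B n) ↥(K ⊔ B n') :=
      Module.Finite.of_restrictScalars_finite ℚ ↥(K ⊔ B n) ↥(K ⊔ B n')
    have h2 : Nat.card (L ≃ₐ[↥(L ⊓ (K ⊔ B n))] L) ∣
        Nat.card (↥(K ⊔ B n') ≃ₐ[↥(K ⊔ B n)] ↥(K ⊔ B n')) :=
      Subgroup.card_dvd_of_surjective _ (res_surj (F := ↥(L ⊓ (K ⊔ B n))) (K := L)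
        (A := ↥(K ⊔ B n)) (C := ↥(K ⊔ B n')) hint)
    rw [IsGalois.card_aut_eq_finrank, IsGalois.card_aut_eq_finrank] at h2
    have h3 := finrank_algC hFL
    have h4 := finrank_algC hle
    have h5 : p ∣ l ^ n' := by
      refine (hp.trans ?_).trans h1
      rw [← h3, ← h4]
      exact h2
    exact hpl ((Nat.prime_dvd_prime_iff_eq Fact.out Fact.out).1 (Nat.Prime.dvd_of_dvd_pow Fact.out h5))
  -- the primes above `p`
  have hns : Nonsplit p hFL := by
    exact nonsplit_desc (F := ↥(L ⊓ (K ⊔ B n))) (K := L) (A := ↥(K ⊔ B n))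
      (C := ↥(K ⊔ B n')) p hint h1
  have hcl' : padicValNat p (classNo L) = padicValNat p (classNo (L ⊓ (K ⊔ B n))) :=
    hcl.elim id fun h => cl_of_ndvd p hFL ((isGalois_algC hFL).1 gLF) hd h
  exact finalC p (L ⊓ (K ⊔ B n)) L hFL ((isGalois_algC hFL).1 gLF) hd hns hcl' m Q hQ

/-- the set of primes of the theorem: all fields `L`, `k ≤ L ≤ K B_n`, and all layers -/
def Eq (k K : IntermediateField ℚ ℂ) (B : ℕ → IntermediateField ℚ ℂ) (N n : ℕ) : Set ℕ :=
  {p : ℕ | ∀ L : IntermediateField ℚ ℂ, k ≤ L → L ≤ K ⊔ B n → Same p L (L ⊓ (K ⊔ B N))}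

theorem classNo_ne_zero (E : IntermediateField ℚ ℂ) (hE : FiniteDimensional ℚ E) :
    classNo E ≠ 0 := by
  have : NumberField E := ⟨⟩
  have : Finite (ClassGroup (𝓞 E)) := Finite.of_fintype _
  exact Nat.card_pos.ne'

/-- the subfields of a number field are finite in number -/
theorem sub_finite (C : IntermediateField ℚ ℂ) [FiniteDimensional ℚ C] :
    {L : IntermediateField ℚ ℂ | L ≤ C}.Finite := by
  have h1 : Finite (IntermediateField ℚ C) :=
    Field.finite_intermediateField_of_exists_primitive_element ℚ C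
      (Field.exists_primitive_element ℚ C)
  refine Set.Finite.subset (Set.finite_range fun E : IntermediateField ℚ C => E.map C.val) ?_
  intro L hL
  refine ⟨L.comap C.val, ?_⟩
  ext x
  constructor
  · rintro ⟨y, hy, rfl⟩
    exact hy
  · intro hx
    exact ⟨⟨x, hL hx⟩, hx, rfl⟩

theorem mono_density {S : Set ℕ} {δ δ' : ℝ} (h : DensityGE S δ) (hd : δ' ≤ δ) :
    DensityGE S δ' := by
  obtain ⟨C, hC⟩ := h
  refine ⟨C, fun s hs hs2 => le_trans ?_ (hC s hs hs2)⟩
  have h1 : 0 ≤ Real.log (1 / (s - 1)) := by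
    apply Real.log_nonneg
    rw [le_div_iff₀ (by linarith)]
    linarith
  have := mul_le_mul_of_nonneg_right hd h1
  linarith

/-- THE EXPLICIT CONDITION: if the order of `p` modulo `l^(N+2)` is large -/
theorem expl (l : ℕ) [Fact l.Prime] (k K : IntermediateField ℚ ℂ)
    (B : ℕ → IntermediateField ℚ ℂ) [FiniteDimensional ℚ K]
    [∀ n, FiniteDimensional ℚ ↥(K ⊔ B n)] (hB : Twr l k K B) (s : ℕ)
    (hs : ¬ l ^ (s + 1) ∣ Module.finrank ℚ (IntermediateField.normalClosure ℚ K ℂ))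
    (p : ℕ) (hp : p.Prime) (hpl : p ≠ l) (N n : ℕ)
    (hord : ¬ p ^ (2 * (l - 1) * l ^ s) ≡ 1 [MOD l ^ (N + 2)])
    (L : IntermediateField ℚ ℂ) (hkL : k ≤ L) (hL : L ≤ K ⊔ B n)
    (hcl : padicValNat p (classNo L) = padicValNat p (classNo (L ⊓ (K ⊔ B N))) ∨
      ¬ p ∣ classNo L) : Same p L (L ⊓ (K ⊔ B N)) := by
  have : Fact p.Prime := ⟨hp⟩
  have hle : K ⊔ B N ≤ K ⊔ B (n + N + 1) := sup_le_sup_left (hB.mono (by omega)) K
  exact end1' p l hpl k K B hB N (n + N + 1) (by omega) hle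
    (nonsplit_exp l K B hB.lay hB.mono s hs p hp hpl N (n + N + 1) hord (by omega) hle) L hkL
    (hL.trans (sup_le_sup_left (hB.mono (by omega)) K)) hcl

/-- THE DENSITY: for every `n ≥ N` the primes in `Eq k K B N n` have density at least
`1 - l^s/l^(N+1)` -/
theorem den (l : ℕ) [Fact l.Prime] (k K : IntermediateField ℚ ℂ)
    (B : ℕ → IntermediateField ℚ ℂ) [FiniteDimensional ℚ K]
    [∀ n, FiniteDimensional ℚ ↥(K ⊔ B n)] (hB : Twr l k K B) (s : ℕ)
    (hs : ¬ l ^ (s + 1) ∣ Module.finrank ℚ (IntermediateField.normalClosure ℚ K ℂ))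
    (N n : ℕ) (hNn : N ≤ n) :
    DensityGE (Eq k K B N n) (1 - (l : ℝ) ^ s / (l : ℝ) ^ (N + 1)) := by
  -- it is enough to treat `n + 1`
  have hmon : Eq k K B N (n + 1) ⊆ Eq k K B N n := fun p hp L hkL hL =>
    hp L hkL (hL.trans (sup_le_sup_left (hB.mono (Nat.le_succ n)) K))
  have hle : K ⊔ B N ≤ K ⊔ B (n + 1) := sup_le_sup_left (hB.mono (by omega)) K
  obtain ⟨L, fdL, gL, hKL, hden⟩ := good_of l K B hB.lay hB.mono N (n + 1) s (by omega) hs
  have : NumberField L := ⟨⟩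
  have hdens := FROBD_thm L {g | Good (K ⊔ B N) (K ⊔ B (n + 1)) L g} (by
    intro g h τ₀ hg hh τ ρ hρ
    obtain ⟨j, hj⟩ := hg (τ * τ₀) ρ hρ
    have hmem : (τ₀ * g * τ₀⁻¹) ^ j ∈ Subgroup.zpowers h := by
      rw [hh]
      exact Subgroup.zpow_mem_zpowers _ _
    obtain ⟨i, hi⟩ := hmem
    refine ⟨i, fun x hx => ?_⟩
    have h1 : τ * h ^ i * τ⁻¹ = τ * τ₀ * g ^ j * (τ * τ₀)⁻¹ := by
      have h2 : h ^ i = (τ₀ * g * τ₀⁻¹) ^ j := hi
      rw [h2, conj_zpow, mul_inv_rev]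
      group
    rw [h1]
    exact hj x hx)
  have hfinL := sub_finite (K ⊔ B (n + 1))
  have hbad : {q : ℕ | ∃ E : IntermediateField ℚ ℂ, E ≤ K ⊔ B (n + 1) ∧ q ∣ classNo E}.Finite := by
    have h1 : {q : ℕ | ∃ E : IntermediateField ℚ ℂ, E ≤ K ⊔ B (n + 1) ∧ q ∣ classNo E} =
        ⋃ E ∈ {E : IntermediateField ℚ ℂ | E ≤ K ⊔ B (n + 1)}, {q : ℕ | q ∣ classNo E} := by
      ext q
      simp
    rw [h1]
    refine Set.Finite.biUnion hfinL fun E hE => ?_
    have fdE : FiniteDimensional ℚ E := FiniteDimensional.of_injective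
      (IntermediateField.inclusion (show E ≤ K ⊔ B (n + 1) from hE)).toLinearMap
      (IntermediateField.inclusion (show E ≤ K ⊔ B (n + 1) from hE)).toRingHom.injective
    refine Set.Finite.subset (Set.finite_Iic (classNo E)) fun q hq => ?_
    exact Nat.le_of_dvd (Nat.pos_of_ne_zero (classNo_ne_zero E fdE)) hq
  have key : DensityGE (Eq k K B N (n + 1))
      ((Nat.card {g : L ≃ₐ[ℚ] L // Good (K ⊔ B N) (K ⊔ B (n + 1)) L g} : ℝ) /
        Nat.card (L ≃ₐ[ℚ] L)) := by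
    refine PDGE_thm _ _ (insert l hbad.toFinset) _ hdens ?_
    rintro q ⟨g, hg, P, hP, hqP, hst⟩ hq hqA E hkE hE
    rw [Finset.mem_insert, Set.Finite.mem_toFinset, not_or] at hqA
    have : Fact q.Prime := ⟨hq⟩
    have hns : Nonsplit q hle := MAINB.nonsplit_of NSF_thm hle hKL g hg q hq P hP hqP hst
    have hd : ∀ F : IntermediateField ℚ ℂ, F ≤ K ⊔ B (n + 1) → padicValNat q (classNo F) = 0 :=
      fun F hF => padicValNat.eq_zero_of_not_dvd fun h => hqA.2 ⟨F, hF, h⟩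
    exact end1' q l hqA.1 k K B hB N (n + 1) (by omega) hle hns E hkE hE
      (Or.inl (by rw [hd E hE, hd _ (inf_le_left.trans hE)]))
  have h2 := mono_density key hden
  exact PDGE_thm _ _ ∅ _ h2 fun q hq _ _ => hmon hq

end Pool.Agent.TWD
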