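import Pool.Agent.RI.Stmts2

/-!
# TWD: definitions of the theorem on twists (MP_b78433_nt, helper11)

All fields are subfields of `ℂ`; `classNo E` is the class number of `E`, `IsLayer p m Q`: `Q` is the `m`-th
layer of the cyclotomic `ℤ_p`-extension of `ℚ`, so that `L ⊔ Q` is the layer `L ℚ_m`.
-/

set_option autoImplicit false

open NumberField

namespace Pool.Agent.TWD

open Pool.Agent.RI

/-- `v_p h(L ℚ_m) = v_p h(F ℚ_m)` for all layers `ℚ_m` of the cyclotomic `ℤ_p`-extension of `ℚ`. -/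
def Same (p : ℕ) (L F : IntermediateField ℚ ℂ) : Prop :=
  ∀ (m : ℕ) (Q : IntermediateField ℚ ℂ), IsLayer p m Q →
    padicValNat p (classNo (L ⊔ Q)) = padicValNat p (classNo (F ⊔ Q))

/-- The `μ`-invariant of the cyclotomic `ℤ_p`-extension of `L` is zero: `v_p h(L ℚ_m) = o(p ^ m)`. -/
def MuZero (p : ℕ) (L : IntermediateField ℚ ℂ) : Prop :=
  ∀ ε : ℝ, 0 < ε → ∃ m₀ : ℕ, ∀ m : ℕ, m₀ ≤ m → ∀ Q : IntermediateField ℚ ℂ, IsLayer p m Q →
    (padicValNat p (classNo (L ⊔ Q)) : ℝ) ≤ ε * (p : ℝ) ^ m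

/-- `F / ℚ` is Galois with abelian group. -/
def AbelianQ (F : IntermediateField ℚ ℂ) : Prop :=
  IsGalois ℚ F ∧ ∀ σ τ : F ≃ₐ[ℚ] F, σ * τ = τ * σ

/-- The theorem of Ferrero and Washington (1979): `μ = 0` for the finite abelian extensions `F` of `ℚ`. -/
def FerreroWashington : Prop :=
  ∀ (p : ℕ) (F : IntermediateField ℚ ℂ), p.Prime → FiniteDimensional ℚ F → AbelianQ F → MuZero p F

/-- `L` is a twist of level `n` (relative to `K / k` and the layers `B n`): `L / k` is cyclic, `L ≤ K B_(n+1)`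
but not `L ≤ K B_n`; `L₁` is its part of degree prime to `l`: `l` does not divide `[L₁ : k]` and
`[L : L₁]` is a power of `l` (`L₁ = k` if `[K : k]` is a power of `l`). -/
def Twist (l : ℕ) (k K : IntermediateField ℚ ℂ) (B : ℕ → IntermediateField ℚ ℂ) (n : ℕ)
    (L₁ L : IntermediateField ℚ ℂ) : Prop :=
  ∃ (h₁ : k ≤ L₁) (h₂ : L₁ ≤ L), L ≤ K ⊔ B (n + 1) ∧ ¬ L ≤ K ⊔ B n ∧
    IsCyclic ((IntermediateField.extendScalars (h₁.trans h₂)) ≃ₐ[k]
      (IntermediateField.extendScalars (h₁.trans h₂))) ∧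
    ¬ l ∣ Module.finrank k (IntermediateField.extendScalars h₁) ∧
    ∃ e : ℕ, Module.finrank L₁ (IntermediateField.extendScalars h₂) = l ^ e

theorem Same.muZero {p : ℕ} {L F : IntermediateField ℚ ℂ} (h : Same p L F) (hF : MuZero p F) :
    MuZero p L := by
  intro ε hε
  obtain ⟨m₀, h0⟩ := hF ε hε
  refine ⟨m₀, fun m hm Q hQ => ?_⟩
  rw [h m Q hQ]
  exact h0 m hm Q hQ

end Pool.Agent.TWD
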