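import Pool.Agent.TWD.Defs
import Pool.Agent.TWD.DEN
import Pool.Agent.TWD.ABL
import Pool.Agent.TWF.COR2

/-!
# TWD: all primes `p ≤ X` and almost all primes at one level (helper11)
-/

set_option autoImplicit false

open NumberField

namespace Pool.Agent.TWD

open Pool.Agent.MU3 Pool.Agent.RI Pool.Agent.RID Pool.Agent.TWF

/-- The theorem for the field `K` and the prime `p` (Theorem C): for all large `n` the class numbers of the
fields between `k` and `K B_n` come from `K B_(n₀)`. -/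
def Thm (k K : IntermediateField ℚ ℂ) (B : ℕ → IntermediateField ℚ ℂ) (p : ℕ) : Prop :=
  ∃ n₀ : ℕ, ∀ n : ℕ, n₀ ≤ n → ∀ L : IntermediateField ℚ ℂ, k ≤ L → L ≤ K ⊔ B n →
    Same p L (L ⊓ (K ⊔ B n₀))

/-- any larger level may be used as the bottom level -/
theorem Thm.up {k K : IntermediateField ℚ ℂ} {B : ℕ → IntermediateField ℚ ℂ} {p : ℕ}
    (hk : k ≤ K) (hmono : Monotone B) (h : Thm k K B p) : ∃ n₀ : ℕ, ∀ N : ℕ, n₀ ≤ N →
      ∀ n : ℕ, N ≤ n → ∀ L : IntermediateField ℚ ℂ, k ≤ L → L ≤ K ⊔ B n →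
        Same p L (L ⊓ (K ⊔ B N)) := by
  obtain ⟨n₀, h0⟩ := h
  refine ⟨n₀, fun N hN n hn L hkL hL m Q hQ => ?_⟩
  have e1 := h0 n (hN.trans hn) L hkL hL m Q hQ
  have e2 := h0 N hN (L ⊓ (K ⊔ B N)) (le_inf hkL (hk.trans le_sup_left)) inf_le_right m Q hQ
  have e3 : L ⊓ (K ⊔ B N) ⊓ (K ⊔ B n₀) = L ⊓ (K ⊔ B n₀) := by
    rw [inf_assoc]
    congr 1
    exact inf_eq_right.2 (sup_le_sup_left (hmono hN) K)
  rw [e3] at e2
  rw [e1, e2]

/-- one level for all primes `p ≤ X` of the set `S` -/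
theorem allp {k K : IntermediateField ℚ ℂ} {B : ℕ → IntermediateField ℚ ℂ} {S : Set ℕ}
    (hk : k ≤ K) (hmono : Monotone B)
    (h : ∀ p ∈ S, Thm k K B p) (X : ℕ) : ∃ n₁ : ℕ, ∀ N : ℕ, n₁ ≤ N →
      ∀ n : ℕ, N ≤ n → ∀ p : ℕ, p ≤ X → p ∈ S → p ∈ Eq k K B N n := by
  have h1 : ∀ p : ℕ, ∃ n₀ : ℕ, p ∈ S → ∀ N : ℕ, n₀ ≤ N →
      ∀ n : ℕ, N ≤ n → ∀ L : IntermediateField ℚ ℂ, k ≤ L → L ≤ K ⊔ B n →
        Same p L (L ⊓ (K ⊔ B N)) := by
    intro p
    by_cases hp : p ∈ S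
    · obtain ⟨n₀, h0⟩ := (h p hp).up hk hmono
      exact ⟨n₀, fun _ => h0⟩
    · exact ⟨0, fun a => absurd a hp⟩
  choose f hf using h1
  refine ⟨(Finset.range (X + 1)).sup f, fun N hN n hn p hpX hpS L hkL hL => ?_⟩
  have h2 : f p ≤ (Finset.range (X + 1)).sup f :=
    Finset.le_sup (Finset.mem_range.2 (Nat.lt_succ_of_le hpX))
  exact hf p hpS N (h2.trans hN) n hn L hkL hL

/-- the intersection of a twist with `K B_N` -/
theorem twist_inf (l a : ℕ) [Fact l.Prime] (k K : IntermediateField ℚ ℂ)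
    (B : ℕ → IntermediateField ℚ ℂ) [FiniteDimensional ℚ K] (hB : Twr l k K B)
    (ha : ¬ l ^ (a + 1) ∣ Module.finrank k (IntermediateField.extendScalars hB.hk)) :
    ∃ n₁ : ℕ, ∀ n : ℕ, n₁ ≤ n → ∀ L₁ L : IntermediateField ℚ ℂ, Twist l k K B n L₁ L →
      L ⊓ (K ⊔ B (n - a)) = L₁ ⊔ B (n - a) := by
  have hl : l.Prime := Fact.out
  have hfL : ∀ n, FiniteDimensional ℚ ↥(K ⊔ B n) := fun n => by
    have : FiniteDimensional ℚ (B n) := (LAY_thm l n (B n) (hB.lay n)).1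
    exact IntermediateField.finiteDimensional_sup K (B n)
  obtain ⟨n₃, h3⟩ := grow l k K B hB
  have hK0 : Module.finrank k (IntermediateField.extendScalars hB.hk) ≠ 0 := by
    have h4 := finrank_algC hB.hk
    let i1 : Algebra k K := algC hB.hk
    have : IsScalarTower ℚ k K := IsScalarTower.of_algebraMap_eq (fun _ => rfl)
    have : FiniteDimensional k K := Module.Finite.of_restrictScalars_finite ℚ k K
    rw [← h4]
    exact Module.finrank_pos.ne'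
  obtain ⟨a', r, hr, har⟩ := Nat.exists_eq_pow_mul_and_not_dvd hK0 l hl.ne_one
  have ha' : a' ≤ a := by
    by_contra h
    push Not at h
    apply ha
    rw [har]
    exact (pow_dvd_pow l h).mul_right r
  refine ⟨n₃ + a + 1, fun n hn L₁ L hT => ?_⟩
  obtain ⟨h₁, h₂, hL, hnL, hcyc, hd, e, he⟩ := hT
  exact cor2 l a r (n - a) hr k K B hB (by
    rw [har]
    exact Nat.mul_dvd_mul (pow_dvd_pow l ha') dvd_rfl) (h3 _ (by omega)) (n + 1) (by omega) L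
    (h₁.trans h₂) hL hcyc hnL L₁ h₁ h₂ e (dvd_of_eq he) hd

/-- All primes `p ≤ X` of the set `S`, the primes with the explicit condition, and a set of density close
to `1`, for the twists. -/
theorem main (l : ℕ) [Fact l.Prime] (k K : IntermediateField ℚ ℂ)
    (B : ℕ → IntermediateField ℚ ℂ) [FiniteDimensional ℚ K] (hB : Twr l k K B) (S : Set ℕ)
    (hS : ∀ p ∈ S, Thm k K B p) (a s : ℕ)
    (ha : ¬ l ^ (a + 1) ∣ Module.finrank k (IntermediateField.extendScalars hB.hk))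
    (hs : ¬ l ^ (s + 1) ∣ Module.finrank ℚ (IntermediateField.normalClosure ℚ K ℂ)) (X : ℕ) :
    ∃ n₁ : ℕ, ∀ n : ℕ, n₁ ≤ n →
      (∀ L₁ L : IntermediateField ℚ ℂ, Twist l k K B n L₁ L → ∀ p : ℕ, p.Prime →
        ((p ≤ X ∧ p ∈ S) ∨ (p ≠ l ∧ ¬ p ∣ classNo L ∧
          ¬ p ^ (2 * (l - 1) * l ^ s) ≡ 1 [MOD l ^ (n - a + 2)])) →
        Same p L (L₁ ⊔ B (n - a))) ∧
      DensityGE {p : ℕ | ∀ L₁ L : IntermediateField ℚ ℂ, Twist l k K B n L₁ L →
        Same p L (L₁ ⊔ B (n - a))} (1 - (l : ℝ) ^ (s + a) / (l : ℝ) ^ (n + 1)) := by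
  have hl : l.Prime := Fact.out
  have hfL : ∀ n, FiniteDimensional ℚ ↥(K ⊔ B n) := fun n => by
    have : FiniteDimensional ℚ (B n) := (LAY_thm l n (B n) (hB.lay n)).1
    exact IntermediateField.finiteDimensional_sup K (B n)
  obtain ⟨n₂, h2⟩ := allp hB.hk hB.mono hS X
  obtain ⟨n₄, h4⟩ := twist_inf l a k K B hB ha
  refine ⟨n₂ + n₄ + a, fun n hn => ⟨?_, ?_⟩⟩
  · intro L₁ L hT p hp hor
    rw [← h4 n (by omega) L₁ L hT]
    obtain ⟨h₁, h₂, hL, hnL, hcyc, hd, e, he⟩ := hT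
    rcases hor with ⟨hpX, hpS⟩ | ⟨hpl, hpd, hord⟩
    · exact h2 (n - a) (by omega) (n + 1) (by omega) p hpX hpS L (h₁.trans h₂) hL
    · exact expl l k K B hB s hs p hp hpl (n - a) (n + 1) hord L (h₁.trans h₂) hL (Or.inr hpd)
  · have h5 := den l k K B hB s hs (n - a) (n + 1) (by omega)
    have h6 : (1 : ℝ) - (l : ℝ) ^ (s + a) / (l : ℝ) ^ (n + 1) =
        1 - (l : ℝ) ^ s / (l : ℝ) ^ (n - a + 1) := by
      have hlpos : (0 : ℝ) < l := by exact_mod_cast hl.pos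
      congr 1
      rw [div_eq_div_iff (pow_pos hlpos _).ne' (pow_pos hlpos _).ne', ← pow_add, ← pow_add]
      congr 1
      omega
    rw [h6]
    refine PDGE_thm _ _ ∅ _ h5 fun p hp _ _ L₁ L hT => ?_
    rw [← h4 n (by omega) L₁ L hT]
    obtain ⟨h₁, h₂, hL, hnL, hcyc, hd, e, he⟩ := hT
    exact hp L (h₁.trans h₂) hL

/-- `μ = 0` from the theorem of Ferrero and Washington -/
theorem mu_of (hFW : FerreroWashington) (l : ℕ) [Fact l.Prime] (p : ℕ) (hp : p.Prime)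
    (L₁ L B : IntermediateField ℚ ℂ) [FiniteDimensional ℚ L₁] (h1 : AbelianQ L₁) (j : ℕ)
    (hB : IsLayer l j B) (hS : Same p L (L₁ ⊔ B)) : MuZero p L := by
  obtain ⟨fdB, hGB, -⟩ := LAY_thm l j B hB
  have hcyc : IsCyclic (B ≃ₐ[ℚ] B) := t_LAYC l j B hB
  have cB : ∀ a b : B ≃ₐ[ℚ] B, a * b = b * a := by
    let _ := IsCyclic.commGroup (α := B ≃ₐ[ℚ] B)
    exact fun a b => mul_comm a b
  have h2 : AbelianQ (L₁ ⊔ B) := ab_sup L₁ B h1.1 hGB h1.2 cB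
  exact hS.muZero (hFW p (L₁ ⊔ B) hp (IntermediateField.finiteDimensional_sup L₁ B) h2)

end Pool.Agent.TWD
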