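import Pool.Agent.TWD.GRP
import Pool.Agent.RI.Stmts2

/-!
# TWD: most elements of the Galois group are good for `K B_n / K B_N` (helper11)
-/

set_option autoImplicit false

open NumberField

namespace Pool.Agent.TWD

open Pool.Agent.MU3 Pool.Agent.RI Pool.Agent.RID Pool.Agent.TWF

/-- an automorphism which is trivial on `E` and on `F` is trivial on `E F` -/
theorem agree {E F L : IntermediateField ℚ ℂ} (hE : E ≤ L) (hF : F ≤ L) (ρ : L ≃ₐ[ℚ] L)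
    (h1 : ∀ x : L, (x : ℂ) ∈ E → ρ x = x) (h2 : ∀ x : L, (x : ℂ) ∈ F → ρ x = x) :
    ∀ x : L, (x : ℂ) ∈ E ⊔ F → ρ x = x := by
  let T : IntermediateField ℚ L := IntermediateField.fixedField (Subgroup.zpowers ρ)
  have hmem : ∀ x : L, ρ x = x → x ∈ T := by
    intro x hx g
    obtain ⟨g, i, rfl⟩ := g
    have h1 : ρ ∈ MulAction.stabilizer (L ≃ₐ[ℚ] L) x := hx
    exact (Subgroup.zpow_mem _ h1 i : ρ ^ i ∈ MulAction.stabilizer (L ≃ₐ[ℚ] L) x)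
  have hKE : E ≤ T.map L.val := by
    intro x hx
    refine ⟨⟨x, hE hx⟩, hmem _ (h1 _ hx), rfl⟩
  have hBE : F ≤ T.map L.val := by
    intro x hx
    refine ⟨⟨x, hF hx⟩, hmem _ (h2 _ hx), rfl⟩
  intro x hx
  obtain ⟨y, hy, hyx⟩ := (sup_le hKE hBE) hx
  have hxy : y = x := Subtype.ext hyx
  rw [← hxy]
  exact hy ⟨ρ, Subgroup.mem_zpowers ρ⟩

/-- an automorphism of order larger than `l^s` on `B_(N+1)` is good for `K B_n / K B_N` -/
theorem good_crit (l : ℕ) [Fact l.Prime] (K : IntermediateField ℚ ℂ) [FiniteDimensional ℚ K]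
    (B : ℕ → IntermediateField ℚ ℂ) (hlay : ∀ n, IsLayer l n (B n)) (hmono : Monotone B)
    (N n s u : ℕ) (hN : N + 1 ≤ n) (hu : ¬ l ∣ u)
    (hMu : Module.finrank ℚ (IntermediateField.normalClosure ℚ K ℂ) = l ^ s * u)
    (L : IntermediateField ℚ ℂ) [FiniteDimensional ℚ L] [hgL : IsGalois ℚ L]
    (hML : IntermediateField.normalClosure ℚ K ℂ ≤ L) (hBL : B n ≤ L) (g : L ≃ₐ[ℚ] L)
    (hg : ∃ x : L, (x : ℂ) ∈ B n ∧ (g ^ (l ^ (s + (n - N - 1)))) x ≠ x) :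
    Good (K ⊔ B N) (K ⊔ B n) L g := by
  have hl : l.Prime := Fact.out
  obtain ⟨fdB, hGB, -⟩ := LAY_thm l n (B n) (hlay n)
  have hcyc : IsCyclic (B n ≃ₐ[ℚ] B n) := t_LAYC l n (B n) (hlay n)
  set M : IntermediateField ℚ ℂ := IntermediateField.normalClosure ℚ K ℂ with hMdef
  have hKM : K ≤ M := IntermediateField.le_normalClosure K
  have fdM : FiniteDimensional ℚ M := inferInstance
  have hnc : IsNormalClosure ℚ K M :=
    Algebra.IsAlgebraic.isNormalClosure_normalClosure (fun x => IsAlgClosed.splits _)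
  have hnM : Normal ℚ M := hnc.normal (K := K)
  have hgM : IsGalois ℚ M := ⟨⟩
  have hnB : Normal ℚ (B n) := hGB.to_normal
  have hnL : Normal ℚ L := hgL.to_normal
  have hKL : K ⊔ B n ≤ L := sup_le (hKM.trans hML) hBL
  obtain ⟨r₁, -, p1⟩ := rst hML hnM hnL
  obtain ⟨r₂, -, p2⟩ := rst hBL hnB hnL
  have hcB : Nat.card (B n ≃ₐ[ℚ] B n) = l ^ n := by
    rw [IsGalois.card_aut_eq_finrank, (hlay n).1]
  have hcM : Nat.card (M ≃ₐ[ℚ] M) = Module.finrank ℚ M := IsGalois.card_aut_eq_finrank ℚ M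
  have hg' : (r₂ g) ^ (l ^ (s + (n - N - 1))) ≠ 1 := by
    intro h
    obtain ⟨x, hx, hne⟩ := hg
    apply hne
    have h1 := p2 (g ^ (l ^ (s + (n - N - 1)))) ⟨(x : ℂ), hx⟩
    rw [map_pow, h] at h1
    exact Subtype.ext h1.symm
  intro τ ρ hρ
  have hd : (r₂ ρ) ^ (l ^ (n - N)) = 1 := by
    refine pow_deg (B := B N) (B' := B n) (hmono (by omega)) hGB _ ?_ _ ?_
    · rw [(hlay n).1, (hlay N).1, ← pow_add]
      congr 1
      omega
    · intro x hx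
      apply Subtype.ext
      rw [p2, hρ _ ((le_sup_right : B N ≤ K ⊔ B N) hx)]
  obtain ⟨i, hi⟩ := cyc_sub l n N s u hl hcB hN hu (r₂ g) (r₂ ρ) hg' hd
  have hcomm : ∀ a b : B n ≃ₐ[ℚ] B n, a * b = b * a := by
    let _ := IsCyclic.commGroup (α := B n ≃ₐ[ℚ] B n)
    exact fun a b => mul_comm a b
  have hg1 : ∀ x : L, (x : ℂ) ∈ M → (τ * g ^ ((l ^ s * u : ℕ) * i : ℤ) * τ⁻¹) x = x := by
    intro x hx
    have h1 : r₁ (τ * g ^ ((l ^ s * u : ℕ) * i : ℤ) * τ⁻¹) = 1 := by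
      rw [map_mul, map_mul, map_inv, map_zpow, zpow_mul, zpow_natCast, ← hMu, ← hcM,
        pow_card_eq_one', one_zpow, mul_one, mul_inv_cancel]
    have h2 := p1 (τ * g ^ ((l ^ s * u : ℕ) * i : ℤ) * τ⁻¹) ⟨(x : ℂ), hx⟩
    rw [h1] at h2
    exact Subtype.ext h2.symm
  have hg2 : r₂ (τ * g ^ ((l ^ s * u : ℕ) * i : ℤ) * τ⁻¹) = r₂ ρ := by
    rw [map_mul, map_mul, map_inv, hcomm (r₂ τ), mul_assoc, mul_inv_cancel, mul_one, map_zpow,
      zpow_mul, zpow_natCast]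
    exact hi
  refine ⟨(l ^ s * u : ℕ) * i, agree (hKM.trans hML) hBL _ ?_ ?_⟩
  · intro x hx
    have h1 := hg1 x (hKM hx)
    have h2 : (τ * g ^ ((l ^ s * u : ℕ) * i : ℤ) * τ⁻¹)⁻¹ x = x := by
      have h3 := congrArg (fun z : L =>
        ((τ * g ^ ((l ^ s * u : ℕ) * i : ℤ) * τ⁻¹)⁻¹ : L ≃ₐ[ℚ] L) z) h1
      beta_reduce at h3
      rw [← AlgEquiv.mul_apply, inv_mul_cancel, AlgEquiv.one_apply] at h3
      exact h3.symm
    rw [AlgEquiv.mul_apply, h2]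
    exact hρ x ((le_sup_left : K ≤ K ⊔ B N) hx)
  · intro x hx
    have h1 : r₂ (ρ * (τ * g ^ ((l ^ s * u : ℕ) * i : ℤ) * τ⁻¹)⁻¹) = 1 := by
      rw [map_mul, map_inv, hg2, mul_inv_cancel]
    have h2 := p2 (ρ * (τ * g ^ ((l ^ s * u : ℕ) * i : ℤ) * τ⁻¹)⁻¹) ⟨(x : ℂ), hx⟩
    rw [h1] at h2
    exact Subtype.ext h2.symm

/-- for every number field `K` and `N < n`: the elements of `Gal(L/ℚ)`, `L` the compositum of the Galois
closure of `K` and `B_n`, which are good for `K B_n / K B_N` have proportion at least `1 - l^s/l^(N+1)`,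
`l^(s+1)` not dividing the degree of the Galois closure of `K` -/
theorem good_of (l : ℕ) [Fact l.Prime] (K : IntermediateField ℚ ℂ) [FiniteDimensional ℚ K]
    (B : ℕ → IntermediateField ℚ ℂ) (hlay : ∀ n, IsLayer l n (B n)) (hmono : Monotone B)
    (N n s : ℕ) (hN : N + 1 ≤ n)
    (hs : ¬ l ^ (s + 1) ∣ Module.finrank ℚ (IntermediateField.normalClosure ℚ K ℂ)) :
    ∃ (L : IntermediateField ℚ ℂ) (_ : FiniteDimensional ℚ L) (_ : IsGalois ℚ L)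
      (_ : K ⊔ B n ≤ L), (1 : ℝ) - (l : ℝ) ^ s / (l : ℝ) ^ (N + 1) ≤
        (Nat.card {g : L ≃ₐ[ℚ] L // Good (K ⊔ B N) (K ⊔ B n) L g} : ℝ) /
          Nat.card (L ≃ₐ[ℚ] L) := by
  classical
  have hl : l.Prime := Fact.out
  obtain ⟨fdB, hGB, -⟩ := LAY_thm l n (B n) (hlay n)
  have hcyc : IsCyclic (B n ≃ₐ[ℚ] B n) := t_LAYC l n (B n) (hlay n)
  set M : IntermediateField ℚ ℂ := IntermediateField.normalClosure ℚ K ℂ with hMdef
  have hKM : K ≤ M := IntermediateField.le_normalClosure K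
  have fdM : FiniteDimensional ℚ M := inferInstance
  have hnc : IsNormalClosure ℚ K M :=
    Algebra.IsAlgebraic.isNormalClosure_normalClosure (fun x => IsAlgClosed.splits _)
  have hnM : Normal ℚ M := hnc.normal (K := K)
  have hgM : IsGalois ℚ M := ⟨⟩
  have hnB : Normal ℚ (B n) := hGB.to_normal
  set L : IntermediateField ℚ ℂ := M ⊔ B n with hLdef
  have fdL : FiniteDimensional ℚ L := IntermediateField.finiteDimensional_sup M (B n)
  have hnM' : @Normal ℚ M _ _ (IntermediateField.algebra' M) := hnM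
  have hnB' : @Normal ℚ (B n) _ _ (IntermediateField.algebra' (B n)) := hnB
  have hnL : Normal ℚ L := @IntermediateField.normal_sup ℚ ℂ _ _ _ M (B n) hnM' hnB'
  have hgL : IsGalois ℚ L := ⟨⟩
  have hML : M ≤ L := le_sup_left
  have hBL : B n ≤ L := le_sup_right
  have hKL : K ⊔ B n ≤ L := sup_le (hKM.trans hML) hBL
  refine ⟨L, fdL, hgL, hKL, ?_⟩
  obtain ⟨r₂, s2, p2⟩ := rst hBL hnB hnL
  have hcB : Nat.card (B n ≃ₐ[ℚ] B n) = l ^ n := by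
    rw [IsGalois.card_aut_eq_finrank, (hlay n).1]
  have hM0 : Module.finrank ℚ M ≠ 0 := Module.finrank_pos.ne'
  obtain ⟨s', u, hu, hMu⟩ := Nat.exists_eq_pow_mul_and_not_dvd hM0 l hl.ne_one
  have hs' : s' ≤ s := by
    by_contra h
    push Not at h
    apply hs
    rw [hMu]
    exact (pow_dvd_pow l h).mul_right u
  -- the good elements
  have hgood : ∀ g : L ≃ₐ[ℚ] L, (r₂ g) ^ (l ^ (s' + (n - N - 1))) ≠ 1 →
      Good (K ⊔ B N) (K ⊔ B n) L g := by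
    intro g hg
    refine good_crit l K B hlay hmono N n s' u hN hu hMu L hML hBL g ?_
    by_contra hall
    push Not at hall
    apply hg
    rw [← map_pow]
    ext x
    rw [p2, hall _ x.2]
    rfl
  -- the count
  have hGpos : (0 : ℝ) < Nat.card (L ≃ₐ[ℚ] L) := by
    have : 0 < Nat.card (L ≃ₐ[ℚ] L) := Nat.card_pos
    exact_mod_cast this
  have hc := cnt r₂ s2 (l ^ (s' + (n - N - 1))) (pow_pos hl.pos _)
  rw [hcB] at hc
  have hsplit : Nat.card (L ≃ₐ[ℚ] L) ≤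
      Nat.card {g : L ≃ₐ[ℚ] L // Good (K ⊔ B N) (K ⊔ B n) L g} +
      Nat.card {g : L ≃ₐ[ℚ] L // r₂ g ^ (l ^ (s' + (n - N - 1))) = 1} := by
    have : Fintype (L ≃ₐ[ℚ] L) := Fintype.ofFinite _
    rw [Nat.card_eq_fintype_card, Nat.card_eq_fintype_card, Nat.card_eq_fintype_card,
      Fintype.card_subtype, Fintype.card_subtype, ← Finset.card_univ]
    refine le_trans (Finset.card_le_card ?_) (Finset.card_union_le _ _)
    intro g _
    rw [Finset.mem_union, Finset.mem_filter, Finset.mem_filter]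
    by_cases h : r₂ g ^ (l ^ (s' + (n - N - 1))) = 1
    · exact Or.inr ⟨Finset.mem_univ _, h⟩
    · exact Or.inl ⟨Finset.mem_univ _, hgood g h⟩
  have hlpos : (0 : ℝ) < l := by exact_mod_cast hl.pos
  have hl1 : (1 : ℝ) ≤ l := by exact_mod_cast hl.one_lt.le
  have hc' : (Nat.card {g : L ≃ₐ[ℚ] L // r₂ g ^ (l ^ (s' + (n - N - 1))) = 1} : ℝ) *
      (l : ℝ) ^ n ≤ (l : ℝ) ^ (s' + (n - N - 1)) * Nat.card (L ≃ₐ[ℚ] L) := by exact_mod_cast hc
  have hsp' : (Nat.card (L ≃ₐ[ℚ] L) : ℝ) ≤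
      Nat.card {g : L ≃ₐ[ℚ] L // Good (K ⊔ B N) (K ⊔ B n) L g} +
      Nat.card {g : L ≃ₐ[ℚ] L // r₂ g ^ (l ^ (s' + (n - N - 1))) = 1} := by exact_mod_cast hsplit
  have h3 : (Nat.card {g : L ≃ₐ[ℚ] L // r₂ g ^ (l ^ (s' + (n - N - 1))) = 1} : ℝ) ≤
      (l : ℝ) ^ s / (l : ℝ) ^ (N + 1) * Nat.card (L ≃ₐ[ℚ] L) := by
    have h4 : (l : ℝ) ^ (s' + (n - N - 1)) ≤ (l : ℝ) ^ s / (l : ℝ) ^ (N + 1) * (l : ℝ) ^ n := by
      rw [div_mul_eq_mul_div, le_div_iff₀ (pow_pos hlpos _), ← pow_add, ← pow_add]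
      exact pow_le_pow_right₀ hl1 (by omega)
    have h5 : (Nat.card {g : L ≃ₐ[ℚ] L // r₂ g ^ (l ^ (s' + (n - N - 1))) = 1} : ℝ) *
        (l : ℝ) ^ n ≤ (l : ℝ) ^ s / (l : ℝ) ^ (N + 1) * Nat.card (L ≃ₐ[ℚ] L) * (l : ℝ) ^ n := by
      refine hc'.trans ?_
      calc (l : ℝ) ^ (s' + (n - N - 1)) * (Nat.card (L ≃ₐ[ℚ] L) : ℝ)
          ≤ (l : ℝ) ^ s / (l : ℝ) ^ (N + 1) * (l : ℝ) ^ n * (Nat.card (L ≃ₐ[ℚ] L) : ℝ) :=
            mul_le_mul_of_nonneg_right h4 hGpos.le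
        _ = _ := by ring
    exact le_of_mul_le_mul_right h5 (pow_pos hlpos n)
  rw [le_div_iff₀ hGpos]
  have h6 : (1 - (l : ℝ) ^ s / (l : ℝ) ^ (N + 1)) * (Nat.card (L ≃ₐ[ℚ] L) : ℝ) =
      Nat.card (L ≃ₐ[ℚ] L) - (l : ℝ) ^ s / (l : ℝ) ^ (N + 1) * Nat.card (L ≃ₐ[ℚ] L) := by ring
  rw [h6]
  linarith

end Pool.Agent.TWD
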