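import Pool.Agent.TWF.COR

/-!
# TWD: elements of small order in cyclic quotients (helper11)
-/

set_option autoImplicit false

open NumberField

namespace Pool.Agent.TWD

open Pool.Agent.MU3 Pool.Agent.RI Pool.Agent.RID Pool.Agent.TWF

/-- in a cyclic group of order `l^n`: if the order of `c` is at least `l^(s+n-N)` then the powers of
`c^(l^s u)` contain all elements killed by `l^(n-N)` -/
theorem cyc_sub {C : Type} [Group C] [Finite C] [IsCyclic C] (l n N s u : ℕ) (hl : l.Prime)
    (hC : Nat.card C = l ^ n) (hN : N + 1 ≤ n) (hu : ¬ l ∣ u) (c d : C)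
    (hc : c ^ (l ^ (s + (n - N - 1))) ≠ 1) (hd : d ^ (l ^ (n - N)) = 1) :
    ∃ i : ℤ, (c ^ (l ^ s * u)) ^ i = d := by
  obtain ⟨r, -, hr⟩ := (Nat.dvd_prime_pow hl).1 ((orderOf_dvd_natCard c).trans (dvd_of_eq hC))
  have h1 : s + (n - N - 1) < r := by
    by_contra h
    push Not at h
    apply hc
    apply orderOf_dvd_iff_pow_eq_one.1
    rw [hr]
    exact pow_dvd_pow l h
  have hcop : Nat.Coprime (orderOf (c ^ l ^ s)) u := by
    rw [orderOf_pow, hr]
    refine Nat.Coprime.coprime_dvd_left (Nat.div_dvd_of_dvd (Nat.gcd_dvd_left _ _)) ?_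
    exact Nat.Coprime.pow_left r ((Nat.Prime.coprime_iff_not_dvd hl).2 hu)
  have h2 : orderOf (c ^ (l ^ s * u)) = l ^ (r - s) := by
    rw [pow_mul, Nat.Coprime.orderOf_pow hcop, orderOf_pow, hr]
    have h3 : Nat.gcd (l ^ r) (l ^ s) = l ^ s :=
      Nat.gcd_eq_right (pow_dvd_pow l (by omega))
    rw [h3]
    exact Nat.pow_div (by omega) hl.pos
  have h3 : d ∈ Subgroup.zpowers (c ^ (l ^ s * u)) := by
    apply mem_of_pow
    rw [Nat.card_zpowers, h2]
    obtain ⟨t, ht⟩ := pow_dvd_pow l (show n - N ≤ r - s by omega)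
    rw [ht, pow_mul, hd, one_pow]
  exact Subgroup.mem_zpowers_iff.1 h3

/-- the number of elements whose image in a cyclic quotient is killed by `m` -/
theorem cnt {G C : Type} [Group G] [Finite G] [Group C] [Finite C] [IsCyclic C] (φ : G →* C)
    (hφ : Function.Surjective φ) (m : ℕ) (hm : 0 < m) :
    Nat.card {g : G // φ g ^ m = 1} * Nat.card C ≤ m * Nat.card G := by
  classical
  have : Fintype G := Fintype.ofFinite G
  have : Fintype C := Fintype.ofFinite C
  have hfib : ∀ x : C, (Finset.univ.filter fun g : G => φ g = x).card =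
      (Finset.univ.filter fun g : G => φ g = 1).card := fun x =>
    MonoidHom.card_fiber_eq_of_mem_range φ (hφ x) ⟨1, map_one φ⟩
  have hG : Nat.card G = Nat.card C * (Finset.univ.filter fun g : G => φ g = 1).card := by
    rw [Nat.card_eq_fintype_card, Nat.card_eq_fintype_card, ← Finset.card_univ,
      Finset.card_eq_sum_card_fiberwise (f := φ) (t := Finset.univ) (fun g _ => Finset.mem_univ _),
      Finset.sum_congr rfl (fun x _ => hfib x), Finset.sum_const, Finset.card_univ, smul_eq_mul]
  have hS : Nat.card {g : G // φ g ^ m = 1} =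
      (Finset.univ.filter fun x : C => x ^ m = 1).card *
        (Finset.univ.filter fun g : G => φ g = 1).card := by
    rw [Nat.card_eq_fintype_card, Fintype.card_subtype,
      Finset.card_eq_sum_card_fiberwise (f := φ)
        (t := Finset.univ.filter fun x : C => x ^ m = 1) (fun g hg => by
          rw [Finset.mem_coe, Finset.mem_filter] at hg ⊢
          exact ⟨Finset.mem_univ _, hg.2⟩)]
    rw [Finset.sum_congr rfl (g := fun _ => (Finset.univ.filter fun g : G => φ g = 1).card)]
    · rw [Finset.sum_const, smul_eq_mul]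
    · intro x hx
      rw [← hfib x]
      congr 1
      ext g
      rw [Finset.mem_filter, Finset.mem_filter, Finset.mem_filter]
      constructor
      · rintro ⟨⟨_, _⟩, h⟩
        exact ⟨Finset.mem_univ _, h⟩
      · rintro ⟨_, h⟩
        refine ⟨⟨Finset.mem_univ _, ?_⟩, h⟩
        rw [h]
        exact (Finset.mem_filter.1 hx).2
  rw [hS, hG]
  have h1 := IsCyclic.card_pow_eq_one_le (α := C) (n := m) hm
  calc (Finset.univ.filter fun x : C => x ^ m = 1).card *
        (Finset.univ.filter fun g : G => φ g = 1).card * Nat.card C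
      = (Finset.univ.filter fun x : C => x ^ m = 1).card *
        (Nat.card C * (Finset.univ.filter fun g : G => φ g = 1).card) := by ring
    _ ≤ _ := Nat.mul_le_mul_right _ h1

/-- restriction to a normal subfield -/
theorem rst {E L : IntermediateField ℚ ℂ} (hEL : E ≤ L) (hE : Normal ℚ E) (hL : Normal ℚ L) :
    ∃ r : (L ≃ₐ[ℚ] L) →* (E ≃ₐ[ℚ] E), Function.Surjective r ∧
      ∀ (g : L ≃ₐ[ℚ] L) (x : E), ((r g x : E) : ℂ) = ((g ⟨(x : ℂ), hEL x.2⟩ : L) : ℂ) := by
  let i1 : Algebra E L := algC hEL
  have t1 : IsScalarTower ℚ E L := IsScalarTower.of_algebraMap_eq (fun _ => rfl)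
  refine ⟨AlgEquiv.restrictNormalHom E, AlgEquiv.restrictNormalHom_surjective L, fun g x => ?_⟩
  exact congrArg (fun z : L => (z : ℂ)) (AlgEquiv.restrictNormal_commutes g E x)

end Pool.Agent.TWD
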