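import Pool.Agent.TWD.Defs
import Pool.Agent.TWD.ABL
import Pool.Agent.TWF.COR2

/-!
# TWD: existence of twists which are not abelian over `ℚ` (helper11)
-/

set_option autoImplicit false

open NumberField IntermediateField

namespace Pool.Agent.TWD

open Pool.Agent.MU3 Pool.Agent.RI Pool.Agent.RID Pool.Agent.TWF

/-- a finite cyclic group has an injective character -/
theorem inj_char {G : Type} [Group G] [Finite G] [hc : IsCyclic G] :
    ∃ X : G →* ℂˣ, Function.Injective X := by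
  have hN : Nat.card G ≠ 0 := Nat.card_pos.ne'
  have : NeZero (Nat.card G) := ⟨hN⟩
  have hz := Complex.isPrimitiveRoot_exp (Nat.card G) hN
  let ζ : ℂˣ := hz.isUnit hN |>.unit
  have hζ : IsPrimitiveRoot ζ (Nat.card G) := IsPrimitiveRoot.isUnit_unit hN hz
  let e1 : Multiplicative (ZMod (Nat.card G)) ≃* G := zmodCyclicMulEquiv hc
  let e2 := hζ.zmodEquivZPowers
  let X : G →* ℂˣ :=
    { toFun := fun g => ((e2 (Multiplicative.toAdd (e1.symm g))).toMul : ℂˣ)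
      map_one' := by simp
      map_mul' := fun a b => by simp }
  refine ⟨X, fun a b hab => ?_⟩
  have h1 : e2 (Multiplicative.toAdd (e1.symm a)) = e2 (Multiplicative.toAdd (e1.symm b)) :=
    Additive.toMul.injective (Subtype.ext hab)
  have h2 := e2.injective h1
  exact e1.symm.injective (Multiplicative.toAdd.injective h2)

theorem ab_aux {k E F : Type} [Field k] [Field E] [Field F] [Algebra k E] [Algebra k F]
    (f : E →ₐ[k] F) (hG : IsGalois k F) (hc : ∀ σ τ : F ≃ₐ[k] F, σ * τ = τ * σ) :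
    IsGalois k E ∧ ∀ σ τ : E ≃ₐ[k] E, σ * τ = τ * σ := by
  have hF : IsAbelianGalois k F := { is_comm := ⟨fun σ τ => hc σ τ⟩ }
  have hE : IsAbelianGalois k E := IsAbelianGalois.of_algHom f
  exact ⟨hE.toIsGalois, fun σ τ => hE.is_comm.comm σ τ⟩

/-- a subfield of a field which is abelian over `ℚ` -/
theorem ab_sub {E F : IntermediateField ℚ ℂ} (h : E ≤ F) (hF : AbelianQ F) : AbelianQ E :=
  ab_aux (IntermediateField.inclusion h).toRingHom.toRatAlgHom hF.1 hF.2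

/-- If `K / k` is cyclic of degree `l^a` there are twists of every large level which generate `K` over
`B_(n+1)`. -/
theorem twist_exists (l : ℕ) [Fact l.Prime] (k K : IntermediateField ℚ ℂ)
    (B : ℕ → IntermediateField ℚ ℂ) [FiniteDimensional ℚ K] (hB : Twr l k K B) (a : ℕ)
    (ha : Module.finrank k (extendScalars hB.hk) = l ^ a)
    (hcyc : IsCyclic ((extendScalars hB.hk) ≃ₐ[k] (extendScalars hB.hk))) :
    ∃ n₁ : ℕ, ∀ n : ℕ, n₁ ≤ n → ∃ L : IntermediateField ℚ ℂ, Twist l k K B n k L ∧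
      K ≤ L ⊔ B (n + 1) := by
  have hl : l.Prime := Fact.out
  have hfL : ∀ n, FiniteDimensional ℚ ↥(K ⊔ B n) := fun n => by
    have : FiniteDimensional ℚ (B n) := (LAY_thm l n (B n) (hB.lay n)).1
    exact IntermediateField.finiteDimensional_sup K (B n)
  obtain ⟨n₃, h3⟩ := grow l k K B hB
  refine ⟨n₃, fun n hn => ?_⟩
  have hkC : k ≤ K ⊔ B (n + 1) := hB.hk.trans le_sup_left
  let aC : Algebra k ↥(K ⊔ B (n + 1)) := algC hkC
  let aK : Algebra k K := algC hB.hk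
  obtain ⟨galC, comC⟩ := gal_ab l k K B hB (n + 1) hkC
  obtain ⟨r₁, r₂, p1, p2, -⟩ := chr_split l k K B hB (n + 1) hkC
  obtain ⟨fdB, hGB, -⟩ := LAY_thm l (n + 1) (B (n + 1)) (hB.lay (n + 1))
  have hcycB : IsCyclic (B (n + 1) ≃ₐ[ℚ] B (n + 1)) := t_LAYC l (n + 1) (B (n + 1)) (hB.lay _)
  have hcycK : IsCyclic (K ≃ₐ[k] K) := (extEquiv hB.hk).autCongr.isCyclic.1 hcyc
  have fdk : FiniteDimensional ℚ k := FiniteDimensional.of_injective
    (IntermediateField.inclusion hB.hk).toLinearMap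
    (IntermediateField.inclusion hB.hk).toRingHom.injective
  have tC : IsScalarTower ℚ k ↥(K ⊔ B (n + 1)) := IsScalarTower.of_algebraMap_eq (fun _ => rfl)
  have tK : IsScalarTower ℚ k K := IsScalarTower.of_algebraMap_eq (fun _ => rfl)
  have ffC : FiniteDimensional k ↥(K ⊔ B (n + 1)) :=
    Module.Finite.of_restrictScalars_finite ℚ k _
  have ffK : FiniteDimensional k K := Module.Finite.of_restrictScalars_finite ℚ k _
  have galK : IsGalois k K := (isGalois_algC hB.hk).2 hB.gal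
  have hone : ∀ τ : ↥(K ⊔ B (n + 1)) ≃ₐ[k] ↥(K ⊔ B (n + 1)), r₁ τ = 1 → r₂ τ = 1 → τ = 1 := by
    intro τ h1 h2
    refine eq_one_of hkC τ ?_ ?_
    · intro x hx
      have h3 := p1 τ ⟨(x : ℂ), hx⟩ x rfl
      rw [h1] at h3
      exact Subtype.ext h3
    · intro x hx
      have h3 := p2 τ ⟨(x : ℂ), hx⟩ x rfl
      rw [h2] at h3
      exact Subtype.ext h3
  obtain ⟨X₁, hX1⟩ := inj_char (G := K ≃ₐ[k] K)
  obtain ⟨X₂, hX2⟩ := inj_char (G := B (n + 1) ≃ₐ[ℚ] B (n + 1))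
  let X : (↥(K ⊔ B (n + 1)) ≃ₐ[k] ↥(K ⊔ B (n + 1))) →* ℂˣ := (X₁.comp r₁) * (X₂.comp r₂)
  have hXv : ∀ τ, X τ = X₁ (r₁ τ) * X₂ (r₂ τ) := fun τ => rfl
  let H : Subgroup (↥(K ⊔ B (n + 1)) ≃ₐ[k] ↥(K ⊔ B (n + 1))) := X.ker
  have hHn : H.Normal := X.normal_ker
  let F : IntermediateField k ↥(K ⊔ B (n + 1)) := fixedField H
  let L : IntermediateField ℚ ℂ := (F.restrictScalars ℚ).map (K ⊔ B (n + 1)).val
  have hmem : ∀ z : ℂ, z ∈ L ↔ ∃ hz : z ∈ K ⊔ B (n + 1), (⟨z, hz⟩ : ↥(K ⊔ B (n + 1))) ∈ F := by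
    intro z
    constructor
    · rintro ⟨y, hy, rfl⟩
      exact ⟨y.2, hy⟩
    · rintro ⟨hz, hy⟩
      exact ⟨⟨z, hz⟩, hy, rfl⟩
  have hL : L ≤ K ⊔ B (n + 1) := fun z hz => ((hmem z).1 hz).1
  have hkL : k ≤ L := by
    intro z hz
    exact (hmem z).2 ⟨hkC hz, F.algebraMap_mem ⟨z, hz⟩⟩
  -- `Gal(L / k)`
  let e : F ≃ₐ[k] (extendScalars hkL) :=
    { toFun := fun y => ⟨(y : ↥(K ⊔ B (n + 1))), (hmem _).2 ⟨y.1.2, y.2⟩⟩
      invFun := fun z => ⟨⟨z.1, hL z.2⟩, ((hmem _).1 z.2).2⟩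
      left_inv := fun _ => rfl
      right_inv := fun _ => rfl
      map_mul' := fun _ _ => rfl
      map_add' := fun _ _ => rfl
      commutes' := fun _ => rfl }
  let q := IsGalois.normalAutEquivQuotient H
  have hcG : IsCyclic ((↥(K ⊔ B (n + 1)) ≃ₐ[k] ↥(K ⊔ B (n + 1))) ⧸ H) := by
    have h1 := QuotientGroup.quotientKerEquivRange X
    have h2 : IsCyclic X.range := inferInstance
    exact h1.symm.isCyclic.1 h2
  have hcF : IsCyclic (F ≃ₐ[k] F) := q.isCyclic.1 hcG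
  have hcL : IsCyclic ((extendScalars hkL) ≃ₐ[k] (extendScalars hkL)) :=
    e.autCongr.isCyclic.1 hcF
  -- the degree
  have hcardB : Nat.card (B (n + 1) ≃ₐ[ℚ] B (n + 1)) = l ^ (n + 1) := by
    rw [IsGalois.card_aut_eq_finrank, (hB.lay (n + 1)).1]
  have hcardK : Nat.card (K ≃ₐ[k] K) = l ^ a := by
    rw [IsGalois.card_aut_eq_finrank]
    have h1 := finrank_algC hB.hk
    rw [h1]
    exact ha
  have hdeg : Module.finrank k (extendScalars hkL) ∣ l ^ (a + (n + 1)) := by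
    rw [← e.toLinearEquiv.finrank_eq]
    have h1 : Module.finrank k F ∣ Module.finrank k ↥(K ⊔ B (n + 1)) :=
      Dvd.intro _ (Module.finrank_mul_finrank k F ↥(K ⊔ B (n + 1)))
    rw [← IsGalois.card_aut_eq_finrank k ↥(K ⊔ B (n + 1))] at h1
    have h2 : Nat.card (↥(K ⊔ B (n + 1)) ≃ₐ[k] ↥(K ⊔ B (n + 1))) ∣
        Nat.card ((K ≃ₐ[k] K) × (B (n + 1) ≃ₐ[ℚ] B (n + 1))) := by
      refine Subgroup.card_dvd_of_injective (r₁.prod r₂) ?_
      rw [injective_iff_map_eq_one]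
      intro g hg
      exact hone g (congrArg Prod.fst hg) (congrArg Prod.snd hg)
    rw [Nat.card_prod, hcardB, hcardK, ← pow_add] at h2
    exact h1.trans h2
  obtain ⟨e', -, he'⟩ := (Nat.dvd_prime_pow hl).1 hdeg
  -- the automorphisms over `L`
  have hfix : ∀ σ : ↥(K ⊔ B (n + 1)) ≃ₐ[k] ↥(K ⊔ B (n + 1)),
      (∀ y : ↥(K ⊔ B (n + 1)), (y : ℂ) ∈ L → σ y = y) → X σ = 1 := by
    intro σ hσ
    have h1 : σ ∈ F.fixingSubgroup := by
      rw [IntermediateField.mem_fixingSubgroup_iff]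
      intro x hx
      exact hσ x ((hmem _).2 ⟨x.2, hx⟩)
    have h2 : F.fixingSubgroup = H := IntermediateField.fixingSubgroup_fixedField H
    rw [h2] at h1
    exact h1
  refine ⟨L, ⟨le_refl k, hkL, hL, ?_, hcL, ?_, e', he'⟩, ?_⟩
  · -- `L` is not in `K B_n`
    intro hLn
    apply h3 n hn
    intro x hx
    have hxC : x ∈ K ⊔ B (n + 1) := (le_sup_right : B (n + 1) ≤ K ⊔ B (n + 1)) hx
    refine fix_mem (E := K ⊔ B n) (hB.hk.trans le_sup_left)
      (sup_le_sup_left (hB.mono (Nat.le_succ n)) K) hkC galC ⟨x, hxC⟩ fun σ hσ => ?_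
    have h1 : X σ = 1 := hfix σ fun y hy => hσ y (hLn hy)
    have h2 : r₁ σ = 1 := by
      ext y
      have h4 := p1 σ y ⟨(y : ℂ), (le_sup_left : K ≤ K ⊔ B (n + 1)) y.2⟩ rfl
      rw [hσ _ ((le_sup_left : K ≤ K ⊔ B n) y.2)] at h4
      exact h4.symm
    rw [hXv, h2, map_one, one_mul] at h1
    have h5 : r₂ σ = 1 := hX2 (h1.trans (map_one X₂).symm)
    rw [hone σ h2 h5]
    rfl
  · have h1 : extendScalars (le_refl k) = ⊥ := by
      ext x
      rw [IntermediateField.mem_bot]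
      constructor
      · intro hx
        exact ⟨⟨x, hx⟩, rfl⟩
      · rintro ⟨y, rfl⟩
        exact y.2
    rw [h1, IntermediateField.finrank_bot]
    exact fun h => hl.one_lt.ne' (Nat.dvd_one.1 h)
  · intro x hx
    have hxC : x ∈ K ⊔ B (n + 1) := (le_sup_left : K ≤ K ⊔ B (n + 1)) hx
    refine fix_mem (E := L ⊔ B (n + 1)) (hkL.trans le_sup_left)
      (sup_le hL le_sup_right) hkC galC ⟨x, hxC⟩ fun σ hσ => ?_
    have h1 : X σ = 1 := hfix σ fun y hy => hσ y ((le_sup_left : L ≤ L ⊔ B (n + 1)) hy)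
    have h2 : r₂ σ = 1 := by
      ext y
      have h4 := p2 σ y ⟨(y : ℂ), (le_sup_right : B (n + 1) ≤ K ⊔ B (n + 1)) y.2⟩ rfl
      rw [hσ _ ((le_sup_right : B (n + 1) ≤ L ⊔ B (n + 1)) y.2)] at h4
      exact h4.symm
    rw [hXv, h2, map_one, mul_one] at h1
    have h5 : r₁ σ = 1 := hX1 (h1.trans (map_one X₁).symm)
    rw [hone σ h5 h2]
    rfl

/-- If `K / k` is cyclic of degree `l^a` and `K / ℚ` is not abelian there are twists of every large level which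
are not abelian over `ℚ`. -/
theorem twist_nonab (l : ℕ) [Fact l.Prime] (k K : IntermediateField ℚ ℂ)
    (B : ℕ → IntermediateField ℚ ℂ) [FiniteDimensional ℚ K] (hB : Twr l k K B) (a : ℕ)
    (ha : Module.finrank k (extendScalars hB.hk) = l ^ a)
    (hcyc : IsCyclic ((extendScalars hB.hk) ≃ₐ[k] (extendScalars hB.hk)))
    (hK : ¬ AbelianQ K) :
    ∃ n₁ : ℕ, ∀ n : ℕ, n₁ ≤ n → ∃ L : IntermediateField ℚ ℂ, Twist l k K B n k L ∧
      ¬ AbelianQ L := by
  obtain ⟨n₁, h1⟩ := twist_exists l k K B hB a ha hcyc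
  refine ⟨n₁, fun n hn => ?_⟩
  obtain ⟨L, hT, hKL⟩ := h1 n hn
  refine ⟨L, hT, fun hA => hK ?_⟩
  obtain ⟨fdB, hGB, -⟩ := LAY_thm l (n + 1) (B (n + 1)) (hB.lay (n + 1))
  have hcycB : IsCyclic (B (n + 1) ≃ₐ[ℚ] B (n + 1)) := t_LAYC l (n + 1) (B (n + 1)) (hB.lay _)
  have cB : ∀ a b : B (n + 1) ≃ₐ[ℚ] B (n + 1), a * b = b * a := by
    let _ := IsCyclic.commGroup (α := B (n + 1) ≃ₐ[ℚ] B (n + 1))
    exact fun a b => mul_comm a b
  obtain ⟨h₁, h₂, hL, -⟩ := hT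
  have fdC : FiniteDimensional ℚ ↥(K ⊔ B (n + 1)) :=
    IntermediateField.finiteDimensional_sup K (B (n + 1))
  have fdL : FiniteDimensional ℚ L := FiniteDimensional.of_injective
    (IntermediateField.inclusion hL).toLinearMap
    (IntermediateField.inclusion hL).toRingHom.injective
  have h2 : AbelianQ (L ⊔ B (n + 1)) := ab_sup L (B (n + 1)) hA.1 hGB hA.2 cB
  exact ab_sub hKL h2

end Pool.Agent.TWD
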