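import Pool.Agent.TWD.T2
import Pool.Agent.TWD.TWEX

/-!
# TWD: the `p`-part of an abelian extension (helper11)
-/

set_option autoImplicit false

open NumberField

namespace Pool.Agent.TWD

open Pool.Agent.MU3 Pool.Agent.RI Pool.Agent.RID Pool.Agent.TWF

/-- an element which is in `H A` and in `H A'` is in `H`, if the elements of `A` and of `A'` have coprime
orders -/
theorem mem_of_two {G : Type} [CommGroup G] (H : Subgroup G) (h₁ h₂ a b : G) (q m : ℕ)
    (hqm : Nat.Coprime q m) (h1 : h₁ ∈ H) (h2 : h₂ ∈ H) (ha : a ^ q = 1) (hb : b ^ m = 1)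
    (h : h₁ * a = h₂ * b) : h₁ * a ∈ H := by
  have e1 : b * a⁻¹ ∈ H := by
    have e2 : b * a⁻¹ = h₂⁻¹ * h₁ := by
      rw [mul_inv_eq_iff_eq_mul, mul_assoc, h, inv_mul_cancel_left]
    rw [e2]
    exact H.mul_mem (H.inv_mem h2) h1
  obtain ⟨c, hc0, hc1⟩ := Nat.chineseRemainder hqm 0 1
  have e3 : (b * a⁻¹) ^ c = b := by
    rw [mul_pow, inv_pow]
    obtain ⟨d, hd⟩ := (Nat.modEq_zero_iff_dvd).1 hc0
    have e4 : a ^ c = 1 := by rw [hd, pow_mul, ha, one_pow]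
    have e5 : b ^ c = b := by
      have h6 : orderOf b ∣ m := orderOf_dvd_of_pow_eq_one hb
      have h7 : c ≡ 1 [MOD orderOf b] := hc1.of_dvd h6
      have h8 := (pow_eq_pow_iff_modEq (x := b)).2 h7
      rwa [pow_one] at h8
    rw [e4, e5, inv_one, mul_one]
  have e6 : b ∈ H := by
    rw [← e3]
    exact H.pow_mem e1 c
  rw [h]
  exact H.mul_mem h2 e6

section

variable {k C : IntermediateField ℚ ℂ} (hkC : k ≤ C)

/-- an automorphism which is trivial on `E ⊓ F` is a product -/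
theorem fix_inf [FiniteDimensional ℚ C] (E F : IntermediateField ℚ ℂ) (hkE : k ≤ E) (hkF : k ≤ F)
    (hE : E ≤ C) (hF : F ≤ C) : letI := algC hkC
    IsGalois k C → ∀ σ : C ≃ₐ[k] C, σ ∈ Fix hkC (E ⊓ F) → σ ∈ Fix hkC E ⊔ Fix hkC F := by
  let i1 : Algebra k C := algC hkC
  intro hG σ hσ
  have t2 : IsScalarTower ℚ k C := IsScalarTower.of_algebraMap_eq (fun _ => rfl)
  have hf : FiniteDimensional k C := Module.Finite.of_restrictScalars_finite ℚ k C
  rw [← IntermediateField.fixingSubgroup_fixedField (Fix hkC E ⊔ Fix hkC F),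
    IntermediateField.mem_fixingSubgroup_iff]
  intro x hx
  refine hσ x ⟨?_, ?_⟩
  · exact fix_mem hkE hE hkC hG x fun τ hτ => hx ⟨τ, (le_sup_left : Fix hkC E ≤ _) hτ⟩
  · exact fix_mem hkF hF hkC hG x fun τ hτ => hx ⟨τ, (le_sup_right : Fix hkC F ≤ _) hτ⟩

/-- `L = (L ⊓ C₁) ⊔ (L ⊓ C₂)` if the automorphisms over `C₁` and over `C₂` have coprime orders -/
theorem split_of [FiniteDimensional ℚ C] (C₁ C₂ : IntermediateField ℚ ℂ) (hk1 : k ≤ C₁)
    (hk2 : k ≤ C₂) (h1 : C₁ ≤ C) (h2 : C₂ ≤ C) (q m : ℕ) (hqm : Nat.Coprime q m) :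
    letI := algC hkC
    IsGalois k C → (∀ σ τ : C ≃ₐ[k] C, σ * τ = τ * σ) →
    (∀ σ ∈ Fix hkC C₁, σ ^ q = 1) → (∀ σ ∈ Fix hkC C₂, σ ^ m = 1) →
    ∀ L : IntermediateField ℚ ℂ, k ≤ L → L ≤ C → L = (L ⊓ C₁) ⊔ (L ⊓ C₂) := by
  let i1 : Algebra k C := algC hkC
  intro hG hab hq hm L hkL hL
  let cG : CommGroup (C ≃ₐ[k] C) := { (inferInstance : Group (C ≃ₐ[k] C)) with mul_comm := hab }
  refine le_antisymm ?_ (sup_le inf_le_left inf_le_left)
  intro x hx
  refine fix_mem (E := (L ⊓ C₁) ⊔ (L ⊓ C₂)) ((le_inf hkL hk1).trans le_sup_left)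
    (sup_le (inf_le_left.trans hL) (inf_le_left.trans hL)) hkC hG ⟨x, hL hx⟩ fun σ hσ => ?_
  have s1 : σ ∈ Fix hkC L ⊔ Fix hkC C₁ := fix_inf hkC L C₁ hkL hk1 hL h1 hG σ fun y hy =>
    hσ y ((le_sup_left : L ⊓ C₁ ≤ _) hy)
  have s2 : σ ∈ Fix hkC L ⊔ Fix hkC C₂ := fix_inf hkC L C₂ hkL hk2 hL h2 hG σ fun y hy =>
    hσ y ((le_sup_right : L ⊓ C₂ ≤ _) hy)
  obtain ⟨g1, hg1, a, ha, e1⟩ := Subgroup.mem_sup.1 s1
  obtain ⟨g2, hg2, b, hb, e2⟩ := Subgroup.mem_sup.1 s2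
  have s3 : σ ∈ Fix hkC L := by
    rw [← e1]
    exact mem_of_two (Fix hkC L) g1 g2 a b q m hqm hg1 hg2 (hq a ha) (hm b hb) (e1.trans e2.symm)
  exact s3 ⟨x, hL hx⟩ hx

end

/-- the fixed field of a group of automorphisms, as a subfield of `ℂ` -/
theorem ffield {k K : IntermediateField ℚ ℂ} (hk : k ≤ K) [FiniteDimensional ℚ K] :
    letI := algC hk
    IsGalois k K → ∀ H : Subgroup (K ≃ₐ[k] K), ∃ (L : IntermediateField ℚ ℂ) (h1 : k ≤ L),
      L ≤ K ∧ (∀ g : K ≃ₐ[k] K, (∀ y : K, (y : ℂ) ∈ L → g y = y) ↔ g ∈ H) ∧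
      Module.finrank k (IntermediateField.extendScalars h1) = H.index := by
  let i1 : Algebra k K := algC hk
  intro hG H
  have t2 : IsScalarTower ℚ k K := IsScalarTower.of_algebraMap_eq (fun _ => rfl)
  have hf : FiniteDimensional k K := Module.Finite.of_restrictScalars_finite ℚ k K
  let F : IntermediateField k K := IntermediateField.fixedField H
  let L : IntermediateField ℚ ℂ := (F.restrictScalars ℚ).map K.val
  have hmem : ∀ z : ℂ, z ∈ L ↔ ∃ hz : z ∈ K, (⟨z, hz⟩ : K) ∈ F := by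
    intro z
    constructor
    · rintro ⟨y, hy, rfl⟩
      exact ⟨y.2, hy⟩
    · rintro ⟨hz, hy⟩
      exact ⟨⟨z, hz⟩, hy, rfl⟩
  have hL : L ≤ K := fun z hz => ((hmem z).1 hz).1
  have hkL : k ≤ L := by
    intro z hz
    exact (hmem z).2 ⟨hk hz, F.algebraMap_mem ⟨z, hz⟩⟩
  let e : F ≃ₐ[k] (IntermediateField.extendScalars hkL) :=
    { toFun := fun y => ⟨(y : K), (hmem _).2 ⟨y.1.2, y.2⟩⟩
      invFun := fun z => ⟨⟨z.1, hL z.2⟩, ((hmem _).1 z.2).2⟩
      left_inv := fun _ => rfl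
      right_inv := fun _ => rfl
      map_mul' := fun _ _ => rfl
      map_add' := fun _ _ => rfl
      commutes' := fun _ => rfl }
  refine ⟨L, hkL, hL, fun g => ?_, ?_⟩
  · have h1 : g ∈ F.fixingSubgroup ↔ g ∈ H := by
      rw [IntermediateField.fixingSubgroup_fixedField]
    rw [← h1, IntermediateField.mem_fixingSubgroup_iff]
    constructor
    · intro h x hx
      exact h x ((hmem _).2 ⟨x.2, hx⟩)
    · intro h y hy
      exact h y ((hmem _).1 hy).2
  · rw [← e.toLinearEquiv.finrank_eq, IntermediateField.finrank_eq_fixingSubgroup_index,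
      IntermediateField.fixingSubgroup_fixedField]

/-- the index of the subgroup of the elements killed by `q` -/
theorem index_pow {G : Type} [CommGroup G] [Finite G] (p q m : ℕ) [hp : Fact p.Prime]
    (hc : Nat.card G = q * m) :
    (¬ p ∣ m → ¬ p ∣ (powMonoidHom q : G →* G).ker.index) ∧
    ((∃ v, q = p ^ v) → ∃ c, (powMonoidHom m : G →* G).ker.index = p ^ c) := by
  constructor
  · intro hpm hd
    rw [Subgroup.index_ker] at hd
    obtain ⟨x, hx⟩ := exists_prime_orderOf_dvd_card' (G := (powMonoidHom q : G →* G).range) p hd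
    obtain ⟨⟨_, y, rfl⟩, hy⟩ : ∃ z : (powMonoidHom q : G →* G).range, z = x := ⟨x, rfl⟩
    apply hpm
    rw [← hx]
    apply orderOf_dvd_of_pow_eq_one
    rw [← hy]
    apply Subtype.ext
    show (y ^ q) ^ m = 1
    rw [← pow_mul, ← hc, pow_card_eq_one']
  · rintro ⟨v, rfl⟩
    rw [Subgroup.index_ker]
    have h1 : IsPGroup p (powMonoidHom m : G →* G).range := by
      rintro ⟨_, y, rfl⟩
      refine ⟨v, Subtype.ext ?_⟩
      show (y ^ m) ^ p ^ v = 1
      rw [← pow_mul, mul_comm m, ← hc, pow_card_eq_one']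
    exact (IsPGroup.iff_card.1 h1)

/-- `K = K' E`, `[K' : k]` prime to `p`, `[E : k]` a power of `p` -/
theorem pparts {k K : IntermediateField ℚ ℂ} (hk : k ≤ K) [FiniteDimensional ℚ K] (p : ℕ)
    [hp : Fact p.Prime] :
    letI := algC hk
    IsGalois k K → (∀ σ τ : K ≃ₐ[k] K, σ * τ = τ * σ) → ∀ v m : ℕ,
      Module.finrank k K = p ^ v * m → ¬ p ∣ m →
      ∃ (K' E : IntermediateField ℚ ℂ) (h1 : k ≤ K') (h3 : k ≤ E), K' ≤ K ∧ E ≤ K ∧
        K' ⊔ E = K ∧ ¬ p ∣ Module.finrank k (IntermediateField.extendScalars h1) ∧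
        (∃ c : ℕ, Module.finrank k (IntermediateField.extendScalars h3) = p ^ c) ∧
        (∀ g : K ≃ₐ[k] K, (∀ y : K, (y : ℂ) ∈ K' → g y = y) → g ^ (p ^ v) = 1) ∧
        ∀ g : K ≃ₐ[k] K, (∀ y : K, (y : ℂ) ∈ E → g y = y) → g ^ m = 1 := by
  let i1 : Algebra k K := algC hk
  intro hG hab v m hd hpm
  have t2 : IsScalarTower ℚ k K := IsScalarTower.of_algebraMap_eq (fun _ => rfl)
  have hf : FiniteDimensional k K := Module.Finite.of_restrictScalars_finite ℚ k K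
  let cG : CommGroup (K ≃ₐ[k] K) := { (inferInstance : Group (K ≃ₐ[k] K)) with mul_comm := hab }
  have hcard : Nat.card (K ≃ₐ[k] K) = p ^ v * m := by
    rw [IsGalois.card_aut_eq_finrank]
    exact hd
  obtain ⟨K', h1, h2, hK, hKd⟩ := ffield hk hG (powMonoidHom (p ^ v) : (K ≃ₐ[k] K) →* (K ≃ₐ[k] K)).ker
  obtain ⟨E, h3, h4, hE, hEd⟩ := ffield hk hG (powMonoidHom m : (K ≃ₐ[k] K) →* (K ≃ₐ[k] K)).ker
  obtain ⟨i1', i2'⟩ := index_pow (G := K ≃ₐ[k] K) p (p ^ v) m hcard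
  have hqm : Nat.Coprime (p ^ v) m := Nat.Coprime.pow_left v ((Nat.Prime.coprime_iff_not_dvd hp.out).2 hpm)
  refine ⟨K', E, h1, h3, h2, h4, le_antisymm (sup_le h2 h4) ?_, ?_, ?_, ?_, ?_⟩
  · intro x hx
    refine fix_mem (E := K' ⊔ E) (h1.trans le_sup_left) (sup_le h2 h4) hk hG ⟨x, hx⟩
      fun σ hσ => ?_
    have s1 := (hK σ).1 fun y hy => hσ y ((le_sup_left : K' ≤ K' ⊔ E) hy)
    have s2 := (hE σ).1 fun y hy => hσ y ((le_sup_right : E ≤ K' ⊔ E) hy)
    have e1 : σ ^ p ^ v = 1 := s1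
    have e2 : σ ^ m = 1 := s2
    have e3 : σ = 1 := by
      rw [← orderOf_eq_one_iff]
      have h5 := Nat.dvd_gcd (orderOf_dvd_of_pow_eq_one e1) (orderOf_dvd_of_pow_eq_one e2)
      rw [Nat.Coprime.gcd_eq_one hqm] at h5
      exact Nat.dvd_one.1 h5
    rw [e3]
    rfl
  · rw [hKd]
    exact i1' hpm
  · rw [hEd]
    exact i2' ⟨v, rfl⟩
  · intro g hg
    exact (hK g).1 hg
  · intro g hg
    exact (hE g).1 hg

/-- the decomposition at the level `n` -/
theorem split_lay (l : ℕ) [Fact l.Prime] {k K : IntermediateField ℚ ℂ}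
    {B : ℕ → IntermediateField ℚ ℂ} [FiniteDimensional ℚ K] (hB : Twr l k K B)
    (K' E : IntermediateField ℚ ℂ) (h1 : k ≤ K') (h3 : k ≤ E) (h2 : K' ≤ K) (h4 : E ≤ K)
    (q m : ℕ) (hqm : Nat.Coprime q m) (hql : Nat.Coprime q l) :
    letI := algC hB.hk
    (∀ g : K ≃ₐ[k] K, (∀ y : K, (y : ℂ) ∈ K' → g y = y) → g ^ q = 1) →
    (∀ g : K ≃ₐ[k] K, (∀ y : K, (y : ℂ) ∈ E → g y = y) → g ^ m = 1) →
    ∀ n : ℕ, ∀ L : IntermediateField ℚ ℂ, k ≤ L → L ≤ K ⊔ B n →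
      L = (L ⊓ (K' ⊔ B n)) ⊔ (L ⊓ E) := by
  let aK : Algebra k K := algC hB.hk
  intro hK' hE' n L hkL hL
  have hfL : ∀ n, FiniteDimensional ℚ ↥(K ⊔ B n) := fun n => by
    have : FiniteDimensional ℚ (B n) := (LAY_thm l n (B n) (hB.lay n)).1
    exact IntermediateField.finiteDimensional_sup K (B n)
  have hkC : k ≤ K ⊔ B n := hB.hk.trans le_sup_left
  let aC : Algebra k ↥(K ⊔ B n) := algC hkC
  obtain ⟨galC, comC⟩ := gal_ab l k K B hB n hkC
  obtain ⟨r₁, r₂, p1, p2, -⟩ := chr_split l k K B hB n hkC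
  obtain ⟨fdB, hGB, -⟩ := LAY_thm l n (B n) (hB.lay n)
  have hone : ∀ τ : ↥(K ⊔ B n) ≃ₐ[k] ↥(K ⊔ B n), r₁ τ = 1 → r₂ τ = 1 → τ = 1 := by
    intro τ h1 h2
    refine eq_one_of hkC τ ?_ ?_
    · intro x hx
      have h3 := p1 τ ⟨(x : ℂ), hx⟩ x rfl
      rw [h1] at h3
      exact Subtype.ext h3
    · intro x hx
      have h3 := p2 τ ⟨(x : ℂ), hx⟩ x rfl
      rw [h2] at h3
      exact Subtype.ext h3
  have hcardB : Nat.card (B n ≃ₐ[ℚ] B n) = l ^ n := by
    rw [IsGalois.card_aut_eq_finrank, (hB.lay n).1]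
  have hr1 : ∀ (τ : ↥(K ⊔ B n) ≃ₐ[k] ↥(K ⊔ B n)) (y : K),
      τ ⟨(y : ℂ), (le_sup_left : K ≤ K ⊔ B n) y.2⟩ =
        ⟨(y : ℂ), (le_sup_left : K ≤ K ⊔ B n) y.2⟩ → r₁ τ y = y := by
    intro τ y h
    have h3 := p1 τ y ⟨(y : ℂ), (le_sup_left : K ≤ K ⊔ B n) y.2⟩ rfl
    rw [h] at h3
    exact Subtype.ext h3.symm
  have hr2 : ∀ (τ : ↥(K ⊔ B n) ≃ₐ[k] ↥(K ⊔ B n)) (x : B n),
      τ ⟨(x : ℂ), (le_sup_right : B n ≤ K ⊔ B n) x.2⟩ =
        ⟨(x : ℂ), (le_sup_right : B n ≤ K ⊔ B n) x.2⟩ → r₂ τ x = x := by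
    intro τ x h
    have h3 := p2 τ x ⟨(x : ℂ), (le_sup_right : B n ≤ K ⊔ B n) x.2⟩ rfl
    rw [h] at h3
    exact Subtype.ext h3.symm
  refine split_of hkC (K' ⊔ B n) E (h1.trans le_sup_left) h3 (sup_le_sup_right h2 (B n))
    (h4.trans le_sup_left) q (m * l ^ n) (hqm.mul_right (hql.pow_right n)) galC comC ?_ ?_ L hkL hL
  · intro σ hσ
    have e1 : (r₁ σ) ^ q = 1 := hK' (r₁ σ) fun y hy =>
      hr1 σ y (hσ _ ((le_sup_left : K' ≤ K' ⊔ B n) hy))
    have e2 : r₂ σ = 1 := by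
      ext x
      exact congrArg Subtype.val (hr2 σ x (hσ _ ((le_sup_right : B n ≤ K' ⊔ B n) x.2)))
    apply hone
    · rw [map_pow, e1]
    · rw [map_pow, e2, one_pow]
  · intro σ hσ
    have e1 : (r₁ σ) ^ m = 1 := hE' (r₁ σ) fun y hy => hr1 σ y (hσ _ hy)
    have e2 : (r₂ σ) ^ (l ^ n) = 1 := by
      rw [← hcardB]
      exact pow_card_eq_one'
    apply hone
    · rw [map_pow, pow_mul, e1, one_pow]
    · rw [map_pow, mul_comm, pow_mul, e2, one_pow]

/-- Theorem C, part (2), for the fields `K` with the property `R` -/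
def StR (R : IntermediateField ℚ ℂ → Prop) (k : IntermediateField ℚ ℂ) (p : ℕ) : Prop :=
  ∀ (K : IntermediateField ℚ ℂ) [FiniteDimensional ℚ K] (hk : k ≤ K),
    IsGalois k (IntermediateField.extendScalars hk) →
    (∀ σ τ : (IntermediateField.extendScalars hk) ≃ₐ[k] (IntermediateField.extendScalars hk),
      σ * τ = τ * σ) →
    ¬ p ∣ Module.finrank k (IntermediateField.extendScalars hk) → R K →
    ∀ (E : IntermediateField ℚ ℂ) [FiniteDimensional ℚ E] (hE : k ≤ E),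
    IsGalois k (IntermediateField.extendScalars hE) →
    (∃ c : ℕ, Module.finrank k (IntermediateField.extendScalars hE) = p ^ c) →
    ∀ l : ℕ, (l = 2 ∨ l = 3) → ∃ n₀ : ℕ, ∀ B₀ : IntermediateField ℚ ℂ, IsLayer l n₀ B₀ →
      ∀ n : ℕ, n₀ ≤ n → ∀ B : IntermediateField ℚ ℂ, IsLayer l n B →
        ∀ L : IntermediateField ℚ ℂ, k ≤ L → L ≤ K ⊔ B →
        ∀ (m : ℕ) (Q : IntermediateField ℚ ℂ), IsLayer p m Q →
          padicValNat p (classNo (L ⊔ E ⊔ Q)) =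
            padicValNat p (classNo ((L ⊓ (K ⊔ B₀)) ⊔ E ⊔ Q))

/-- `p` is unramified in `K` -/
def Unr (p : ℕ) (K : IntermediateField ℚ ℂ) : Prop :=
  ∀ Q : Ideal (𝓞 K), Q.IsPrime → (p : 𝓞 K) ∈ Q → (p : 𝓞 K) ∉ Q ^ 2

theorem StC.toR {k : IntermediateField ℚ ℂ} {p : ℕ} (h : StC k p) : StR (Unr p) k p := by
  intro K fdK hk hG hab hd hR E fdE hE hGE hcE l hl
  obtain ⟨n₀, h0⟩ := h K hk hG hab hd hR E hE hGE hcE l hl
  exact ⟨n₀, fun B₀ hB₀ n hn B hB L hkL hL m Q hQ => (h0 B₀ hB₀).2 n hn B hB L hkL hL m Q hQ⟩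

theorem Unr.sub (p : ℕ) (K' K : IntermediateField ℚ ℂ) (hle : K' ≤ K) [FiniteDimensional ℚ K]
    (h : Unr p K) : Unr p K' := by
  intro Q hQ hp hp2
  let i1 : Algebra K' K := algC hle
  have fdK' : FiniteDimensional ℚ K' := FiniteDimensional.of_injective
    (IntermediateField.inclusion hle).toLinearMap
    (IntermediateField.inclusion hle).toRingHom.injective
  have t2 : IsScalarTower ℚ K' K := IsScalarTower.of_algebraMap_eq (fun _ => rfl)
  have hf : FiniteDimensional K' K := Module.Finite.of_restrictScalars_finite ℚ K' K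
  have hker : RingHom.ker (algebraMap (𝓞 K') (𝓞 K)) ≤ Q := by
    rw [(RingHom.injective_iff_ker_eq_bot _).1 (FaithfulSMul.algebraMap_injective (𝓞 K') (𝓞 K))]
    exact bot_le
  obtain ⟨P, hP, hPQ⟩ := Ideal.exists_ideal_over_prime_of_isIntegral_of_isDomain Q hker
  have hle2 : Q.map (algebraMap (𝓞 K') (𝓞 K)) ≤ P := by
    rw [Ideal.map_le_iff_le_comap, hPQ]
  have e1 : algebraMap (𝓞 K') (𝓞 K) (p : 𝓞 K') = (p : 𝓞 K) := map_natCast _ p
  refine h P hP ?_ ?_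
  · rw [← e1]
    exact hle2 (Ideal.mem_map_of_mem _ hp)
  · have e2 := Ideal.mem_map_of_mem (algebraMap (𝓞 K') (𝓞 K)) hp2
    rw [Ideal.map_pow, e1] at e2
    exact Ideal.pow_right_mono hle2 2 e2

/-- Theorem C for one prime, any degree -/
theorem thm_R (R : IntermediateField ℚ ℂ → Prop)
    (hRs : ∀ K' K : IntermediateField ℚ ℂ, K' ≤ K → FiniteDimensional ℚ K → R K → R K')
    (k K : IntermediateField ℚ ℂ) [FiniteDimensional ℚ K] (h : k ≤ K)
    (hG : IsGalois k (IntermediateField.extendScalars h))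
    (hab : ∀ σ τ : (IntermediateField.extendScalars h) ≃ₐ[k] (IntermediateField.extendScalars h),
      σ * τ = τ * σ) (p : ℕ) (hp : p.Prime) (hC : StR R k p) (hR : R K)
    (l : ℕ) (hl : l = 2 ∨ l = 3) (hpl : p ≠ l) (B : ℕ → IntermediateField ℚ ℂ)
    (hlay : ∀ n, IsLayer l n (B n)) (hmono : Monotone B) : Thm k K B p := by
  classical
  have hlp : l.Prime := by
    rcases hl with rfl | rfl
    · exact Nat.prime_two
    · exact Nat.prime_three
  have hlF : Fact l.Prime := ⟨hlp⟩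
  have hpF : Fact p.Prime := ⟨hp⟩
  have hB : Twr l k K B := ⟨h, hG, hab, hlay, hmono⟩
  let aK : Algebra k K := algC h
  have t2 : IsScalarTower ℚ k K := IsScalarTower.of_algebraMap_eq (fun _ => rfl)
  have hf : FiniteDimensional k K := Module.Finite.of_restrictScalars_finite ℚ k K
  have galK : IsGalois k K := (isGalois_algC h).2 hG
  have hab' : ∀ a b : K ≃ₐ[k] K, a * b = b * a := by
    intro a b
    have h1 := hab ((extEquiv h).symm.autCongr a) ((extEquiv h).symm.autCongr b)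
    rw [← map_mul, ← map_mul] at h1
    exact (extEquiv h).symm.autCongr.injective h1
  obtain ⟨v, m, hm, hvm⟩ := Nat.exists_eq_pow_mul_and_not_dvd
    (Module.finrank_pos (R := k) (M := K)).ne' p hp.ne_one
  obtain ⟨K', E, h1, h3, h2, h4, hKE, hdK', ⟨c, hc⟩, hK'g, hEg⟩ := pparts h p galK hab' v m hvm hm
  have hsp := split_lay l hB K' E h1 h3 h2 h4 (p ^ v) m
    (Nat.Coprime.pow_left v ((Nat.Prime.coprime_iff_not_dvd hp).2 hm))
    (Nat.Coprime.pow_left v ((Nat.coprime_primes hp hlp).2 hpl)) hK'g hEg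
  have fdE : FiniteDimensional ℚ E := FiniteDimensional.of_injective
    (IntermediateField.inclusion h4).toLinearMap
    (IntermediateField.inclusion h4).toRingHom.injective
  have fdK' : FiniteDimensional ℚ K' := FiniteDimensional.of_injective
    (IntermediateField.inclusion h2).toLinearMap
    (IntermediateField.inclusion h2).toRingHom.injective
  -- subfields are Galois with abelian groups
  have hsub : ∀ (F : IntermediateField ℚ ℂ) (hkF : k ≤ F), F ≤ K →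
      IsGalois k (IntermediateField.extendScalars hkF) ∧
      ∀ σ τ : (IntermediateField.extendScalars hkF) ≃ₐ[k] (IntermediateField.extendScalars hkF),
        σ * τ = τ * σ := by
    intro F hkF hFK
    have f : (IntermediateField.extendScalars hkF) →ₐ[k] (IntermediateField.extendScalars h) :=
      IntermediateField.inclusion
        ((IntermediateField.extendScalars_le_extendScalars_iff hkF h).2 hFK)
    exact ab_aux f hG hab
  have hK'G := hsub K' h1 h2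
  have key : ∀ E' : IntermediateField ℚ ℂ, ∃ n₀ : ℕ, k ≤ E' → E' ≤ E →
      ∀ n : ℕ, n₀ ≤ n → ∀ L : IntermediateField ℚ ℂ, k ≤ L → L ≤ K' ⊔ B n →
      ∀ (m : ℕ) (Q : IntermediateField ℚ ℂ), IsLayer p m Q →
        padicValNat p (classNo (L ⊔ E' ⊔ Q)) =
          padicValNat p (classNo ((L ⊓ (K' ⊔ B n₀)) ⊔ E' ⊔ Q)) := by
    intro E'
    by_cases hE' : k ≤ E' ∧ E' ≤ E
    · obtain ⟨g1, g2⟩ := hE'
      have fdE' : FiniteDimensional ℚ E' := FiniteDimensional.of_injective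
        (IntermediateField.inclusion g2).toLinearMap
        (IntermediateField.inclusion g2).toRingHom.injective
      have gal := (hsub E' g1 (g2.trans h4)).1
      have hcE : ∃ c' : ℕ, Module.finrank k (IntermediateField.extendScalars g1) = p ^ c' := by
        let a1 : Algebra k E' := algC g1
        let a2 : Algebra E' E := algC g2
        let a3 : Algebra k E := algC h3
        have t1 : IsScalarTower k E' E := towerC g1 g2
        have e1 := Module.finrank_mul_finrank k E' E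
        have e2 := finrank_algC g1
        have e3 := finrank_algC h3
        have e4 : Module.finrank k E' ∣ p ^ c := by
          rw [← hc, ← e3]
          exact Dvd.intro _ e1
        obtain ⟨c', -, hc'⟩ := (Nat.dvd_prime_pow hp).1 e4
        exact ⟨c', by rw [← e2]; exact hc'⟩
      obtain ⟨n₀, h0⟩ := hC K' h1 hK'G.1 hK'G.2 hdK' (hRs K' K h2 inferInstance hR) E' g1 gal hcE
        l hl
      exact ⟨n₀, fun _ _ n hn L hkL hL m Q hQ =>
        h0 (B n₀) (hlay n₀) n hn (B n) (hlay n) L hkL hL m Q hQ⟩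
    · exact ⟨0, fun g1 g2 => absurd ⟨g1, g2⟩ hE'⟩
  choose f hf2 using key
  refine ⟨(sub_finite E).toFinset.sup f, fun n hn L hkL hL m Q hQ => ?_⟩
  set N : ℕ := (sub_finite E).toFinset.sup f with hN
  let E' : IntermediateField ℚ ℂ := L ⊓ E
  have g1 : k ≤ E' := le_inf hkL h3
  have g2 : E' ≤ E := inf_le_right
  have hfN : f E' ≤ N := Finset.le_sup ((sub_finite E).mem_toFinset.2 g2)
  have k0 := hf2 E' g1 g2
  -- the field `L`
  have sL := hsp n L hkL hL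
  have eL := k0 n (hfN.trans hn) (L ⊓ (K' ⊔ B n)) (le_inf hkL (h1.trans le_sup_left)) inf_le_right
    m Q hQ
  -- the field `L ⊓ (K ⊔ B N)`
  let F : IntermediateField ℚ ℂ := L ⊓ (K ⊔ B N)
  have sF := hsp N F (le_inf hkL (h.trans le_sup_left)) inf_le_right
  have eF := k0 N hfN (F ⊓ (K' ⊔ B N)) (le_inf (le_inf hkL (h.trans le_sup_left))
    (h1.trans le_sup_left)) inf_le_right m Q hQ
  have i1 : F ⊓ E = E' := by
    show L ⊓ (K ⊔ B N) ⊓ E = L ⊓ E
    rw [inf_assoc, inf_eq_right.2 (h4.trans le_sup_left : E ≤ K ⊔ B N)]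
  have i2 : F ⊓ (K' ⊔ B N) = L ⊓ (K' ⊔ B N) := by
    show L ⊓ (K ⊔ B N) ⊓ (K' ⊔ B N) = L ⊓ (K' ⊔ B N)
    rw [inf_assoc, inf_eq_right.2 (sup_le_sup_right h2 (B N))]
  have i3 : L ⊓ (K' ⊔ B n) ⊓ (K' ⊔ B (f E')) = L ⊓ (K' ⊔ B (f E')) := by
    rw [inf_assoc, inf_eq_right.2 (sup_le_sup_left (hmono (hfN.trans hn)) K')]
  have i4 : F ⊓ (K' ⊔ B N) ⊓ (K' ⊔ B (f E')) = L ⊓ (K' ⊔ B (f E')) := by
    rw [i2, inf_assoc, inf_eq_right.2 (sup_le_sup_left (hmono hfN) K')]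
  rw [i3] at eL
  rw [i4] at eF
  have j1 : L ⊔ Q = L ⊓ (K' ⊔ B n) ⊔ E' ⊔ Q := congrArg (· ⊔ Q) sL
  have j2 : F ⊔ Q = F ⊓ (K' ⊔ B N) ⊔ E' ⊔ Q := by
    have j3 := congrArg (· ⊔ Q) sF
    rwa [i1] at j3
  show padicValNat p (classNo (L ⊔ Q)) = padicValNat p (classNo (F ⊔ Q))
  rw [j1, j2, eL, eF]

end Pool.Agent.TWD
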