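import Pool.Agent.TWD.FIN

/-!
# TWD: the theorem on all primes `p ≤ X` and almost all primes, from Theorem C (helper11)
-/

set_option autoImplicit false

open NumberField IntermediateField

namespace Pool.Agent.TWD

open Pool.Agent.MU3 Pool.Agent.RI Pool.Agent.RID Pool.Agent.TWF

/-- Theorem C for the field `k` and the prime `p` (`Pool.Agent.TWI.StPE`, same text). -/
def StC (k : IntermediateField ℚ ℂ) (p : ℕ) : Prop :=
  ∀ (K : IntermediateField ℚ ℂ) [FiniteDimensional ℚ K] (hk : k ≤ K),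
    IsGalois k (IntermediateField.extendScalars hk) →
    (∀ σ τ : (IntermediateField.extendScalars hk) ≃ₐ[k] (IntermediateField.extendScalars hk),
      σ * τ = τ * σ) →
    ¬ p ∣ Module.finrank k (IntermediateField.extendScalars hk) →
    (∀ Q : Ideal (𝓞 K), Q.IsPrime → (p : 𝓞 K) ∈ Q → (p : 𝓞 K) ∉ Q ^ 2) →
    ∀ (E : IntermediateField ℚ ℂ) [FiniteDimensional ℚ E] (hE : k ≤ E),
    IsGalois k (IntermediateField.extendScalars hE) →
    (∃ c : ℕ, Module.finrank k (IntermediateField.extendScalars hE) = p ^ c) →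
    ∀ l : ℕ, (l = 2 ∨ l = 3) → ∃ n₀ : ℕ, ∀ B₀ : IntermediateField ℚ ℂ, IsLayer l n₀ B₀ →
      (∀ a : ℕ, ¬ l ^ (a + 1) ∣ Module.finrank k (IntermediateField.extendScalars hk) →
        ∀ n : ℕ, n₀ + a ≤ n → ∀ B B' : IntermediateField ℚ ℂ, IsLayer l n B →
        IsLayer l (n + 1) B' → ∀ (L : IntermediateField ℚ ℂ) (hL : k ≤ L),
        L ≤ K ⊔ B' → ¬ L ≤ K ⊔ B →
        IsCyclic ((IntermediateField.extendScalars hL) ≃ₐ[k]
          (IntermediateField.extendScalars hL)) →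
        ∀ (L₁ : IntermediateField ℚ ℂ) (h₁ : k ≤ L₁) (h₂ : L₁ ≤ L),
        ¬ l ∣ Module.finrank k (IntermediateField.extendScalars h₁) →
        (∃ e : ℕ, Module.finrank L₁ (IntermediateField.extendScalars h₂) = l ^ e) →
        ∀ (m : ℕ) (Q : IntermediateField ℚ ℂ), IsLayer p m Q →
          padicValNat p (classNo (L ⊔ E ⊔ Q)) = padicValNat p (classNo (L₁ ⊔ B₀ ⊔ E ⊔ Q))) ∧
      ∀ n : ℕ, n₀ ≤ n → ∀ B : IntermediateField ℚ ℂ, IsLayer l n B →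
        ∀ L : IntermediateField ℚ ℂ, k ≤ L → L ≤ K ⊔ B →
        ∀ (m : ℕ) (Q : IntermediateField ℚ ℂ), IsLayer p m Q →
          padicValNat p (classNo (L ⊔ E ⊔ Q)) =
            padicValNat p (classNo ((L ⊓ (K ⊔ B₀)) ⊔ E ⊔ Q))

theorem self_data (k : IntermediateField ℚ ℂ) [FiniteDimensional ℚ k] :
    IsGalois k (extendScalars (le_refl k)) ∧
      Module.finrank k (extendScalars (le_refl k)) = 1 := by
  have h1 : extendScalars (le_refl k) = ⊥ := by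
    ext x
    rw [IntermediateField.mem_bot]
    constructor
    · intro hx
      exact ⟨⟨x, hx⟩, rfl⟩
    · rintro ⟨y, rfl⟩
      exact y.2
  rw [h1]
  refine ⟨?_, IntermediateField.finrank_bot⟩
  have h2 : IsAbelianGalois k (⊥ : IntermediateField k ℂ) := inferInstance
  exact h2.toIsGalois

/-- Theorem C for one prime, without `E` -/
theorem thm_of (k K : IntermediateField ℚ ℂ) [FiniteDimensional ℚ K] (h : k ≤ K)
    (hG : IsGalois k (extendScalars h))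
    (hab : ∀ σ τ : (extendScalars h) ≃ₐ[k] (extendScalars h), σ * τ = τ * σ) (p : ℕ)
    (hC : StC k p) (hd : ¬ p ∣ Module.finrank k (extendScalars h))
    (hram : ∀ Q : Ideal (𝓞 K), Q.IsPrime → (p : 𝓞 K) ∈ Q → (p : 𝓞 K) ∉ Q ^ 2)
    (l : ℕ) (hl : l = 2 ∨ l = 3) (B : ℕ → IntermediateField ℚ ℂ)
    (hlay : ∀ n, IsLayer l n (B n)) : Thm k K B p := by
  have fdk : FiniteDimensional ℚ k := FiniteDimensional.of_injective
    (IntermediateField.inclusion h).toLinearMap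
    (IntermediateField.inclusion h).toRingHom.injective
  obtain ⟨g1, g2⟩ := self_data k
  obtain ⟨n₀, h0⟩ := hC K h hG hab hd hram k (le_refl k) g1 ⟨0, by rw [g2, pow_zero]⟩ l hl
  refine ⟨n₀, fun n hn L hkL hL m Q hQ => ?_⟩
  have h1 := (h0 (B n₀) (hlay n₀)).2 n hn (B n) (hlay n) L hkL hL m Q hQ
  have e1 : L ⊔ k = L := sup_eq_left.2 hkL
  have e2 : L ⊓ (K ⊔ B n₀) ⊔ k = L ⊓ (K ⊔ B n₀) :=
    sup_eq_left.2 (le_inf hkL (h.trans le_sup_left))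
  rw [e1, e2] at h1
  exact h1

/-- The theorem, from Theorem C. -/
theorem t2 (hC : ∀ k : IntermediateField ℚ ℂ, Module.finrank ℚ k = 2 →
      (∃ z ∈ k, (starRingEnd ℂ) z ≠ z) → (∀ z ∈ k, z ^ 2 ≠ -1) → (∀ z ∈ k, z ^ 2 ≠ -3) →
      ∃ S : Finset ℕ, ∀ p : ℕ, p.Prime → p ∉ S → StC k p) :
    -- (1)
    (∀ k : IntermediateField ℚ ℂ, Module.finrank ℚ k = 2 → (∃ z ∈ k, (starRingEnd ℂ) z ≠ z) →
      (∀ z ∈ k, z ^ 2 ≠ -1) → (∀ z ∈ k, z ^ 2 ≠ -3) → ∃ S : Finset ℕ,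
      ∀ (K : IntermediateField ℚ ℂ) [FiniteDimensional ℚ K] (h : k ≤ K),
      IsGalois k (extendScalars h) →
      (∀ σ τ : (extendScalars h) ≃ₐ[k] (extendScalars h), σ * τ = τ * σ) →
      ∀ l : ℕ, (l = 2 ∨ l = 3) → ∀ B : ℕ → IntermediateField ℚ ℂ, (∀ n, IsLayer l n (B n)) →
      Monotone B → ∀ a s : ℕ, ¬ l ^ (a + 1) ∣ Module.finrank k (extendScalars h) →
      ¬ l ^ (s + 1) ∣ Module.finrank ℚ (normalClosure ℚ K ℂ) →
      ∀ X : ℕ, ∃ n₁ : ℕ, ∀ n : ℕ, n₁ ≤ n →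
        (∀ L₁ L : IntermediateField ℚ ℂ, Twist l k K B n L₁ L → ∀ p : ℕ, p.Prime →
          ((p ≤ X ∧ p ∉ S ∧ ¬ p ∣ Module.finrank k (extendScalars h) ∧
            ∀ Q : Ideal (𝓞 K), Q.IsPrime → (p : 𝓞 K) ∈ Q → (p : 𝓞 K) ∉ Q ^ 2) ∨
          (p ≠ l ∧ ¬ p ∣ classNo L ∧
            ¬ p ^ (2 * (l - 1) * l ^ s) ≡ 1 [MOD l ^ (n - a + 2)])) →
          Same p L (L₁ ⊔ B (n - a)) ∧ (FerreroWashington → AbelianQ L₁ → MuZero p L)) ∧
        DensityGE {p : ℕ | ∀ L₁ L : IntermediateField ℚ ℂ, Twist l k K B n L₁ L →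
          Same p L (L₁ ⊔ B (n - a)) ∧ (FerreroWashington → AbelianQ L₁ → MuZero p L)}
          (1 - (l : ℝ) ^ (s + a) / (l : ℝ) ^ (n + 1))) ∧
    -- (2)
    (∀ k : IntermediateField ℚ ℂ, Module.finrank ℚ k = 2 → (∃ z ∈ k, (starRingEnd ℂ) z ≠ z) →
      (∀ z ∈ k, z ^ 2 ≠ -1) → (∀ z ∈ k, z ^ 2 ≠ -3) → ∃ S : Finset ℕ,
      ∀ (K : IntermediateField ℚ ℂ) [FiniteDimensional ℚ K] (h : k ≤ K),
      IsGalois k (extendScalars h) →
      (∀ σ τ : (extendScalars h) ≃ₐ[k] (extendScalars h), σ * τ = τ * σ) →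
      ∀ l : ℕ, (l = 2 ∨ l = 3) → ∀ B : ℕ → IntermediateField ℚ ℂ, (∀ n, IsLayer l n (B n)) →
      Monotone B → ∀ X : ℕ, ∃ n₁ : ℕ, ∀ N n : ℕ, n₁ ≤ N → N ≤ n → ∀ p : ℕ, p.Prime → p ≤ X →
        p ∉ S → ¬ p ∣ Module.finrank k (extendScalars h) →
        (∀ Q : Ideal (𝓞 K), Q.IsPrime → (p : 𝓞 K) ∈ Q → (p : 𝓞 K) ∉ Q ^ 2) →
        ∀ L : IntermediateField ℚ ℂ, k ≤ L → L ≤ K ⊔ B n → Same p L (L ⊓ (K ⊔ B N))) ∧
    -- (3)
    (∀ (k K : IntermediateField ℚ ℂ) [FiniteDimensional ℚ K] (h : k ≤ K),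
      IsGalois k (extendScalars h) →
      (∀ σ τ : (extendScalars h) ≃ₐ[k] (extendScalars h), σ * τ = τ * σ) →
      ∀ l : ℕ, l.Prime → ∀ B : ℕ → IntermediateField ℚ ℂ, (∀ n, IsLayer l n (B n)) →
      Monotone B → ∀ s : ℕ, ¬ l ^ (s + 1) ∣ Module.finrank ℚ (normalClosure ℚ K ℂ) →
      ∀ N n : ℕ, N ≤ n →
        (∀ L : IntermediateField ℚ ℂ, k ≤ L → L ≤ K ⊔ B n → ∀ p : ℕ, p.Prime → p ≠ l →
          ¬ p ∣ classNo L → ¬ p ^ (2 * (l - 1) * l ^ s) ≡ 1 [MOD l ^ (N + 2)] →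
          Same p L (L ⊓ (K ⊔ B N))) ∧
        DensityGE {p : ℕ | ∀ L : IntermediateField ℚ ℂ, k ≤ L → L ≤ K ⊔ B n →
          Same p L (L ⊓ (K ⊔ B N))} (1 - (l : ℝ) ^ s / (l : ℝ) ^ (N + 1))) ∧
    -- (4)
    (∀ (F K L : IntermediateField ℚ ℂ) [FiniteDimensional ℚ L] (hFK : F ≤ K) (_hKL : K ≤ L),
      IsGalois ℚ L → IsGalois F (extendScalars hFK) →
      DensityGE {p : ℕ | Same p K F}
        ((Nat.card {g : L ≃ₐ[ℚ] L // Good F K L g} : ℝ) / Nat.card (L ≃ₐ[ℚ] L))) := by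
  refine ⟨?_, ?_, ?_, ?_⟩
  · intro k h2 hi h4 h3
    obtain ⟨S, hS⟩ := hC k h2 hi h4 h3
    refine ⟨S, ?_⟩
    intro K fdK h hG hab l hl B hlay hmono a s ha hs X
    have hlp : l.Prime := by
      rcases hl with rfl | rfl
      · exact Nat.prime_two
      · exact Nat.prime_three
    have hlF : Fact l.Prime := ⟨hlp⟩
    have hB : Twr l k K B := ⟨h, hG, hab, hlay, hmono⟩
    obtain ⟨n₁, h1⟩ := main l k K B hB {p : ℕ | p.Prime ∧ p ∉ S ∧
      ¬ p ∣ Module.finrank k (extendScalars h) ∧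
      ∀ Q : Ideal (𝓞 K), Q.IsPrime → (p : 𝓞 K) ∈ Q → (p : 𝓞 K) ∉ Q ^ 2} (by
        rintro p ⟨hp, hpS, hpd, hram⟩
        exact thm_of k K h hG hab p (hS p hp hpS) hpd hram l hl B hlay) a s ha hs X
    refine ⟨n₁, fun n hn => ?_⟩
    obtain ⟨h5, h6⟩ := h1 n hn
    have key : ∀ L₁ L : IntermediateField ℚ ℂ, Twist l k K B n L₁ L → ∀ p : ℕ, p.Prime →
        Same p L (L₁ ⊔ B (n - a)) →
        Same p L (L₁ ⊔ B (n - a)) ∧ (FerreroWashington → AbelianQ L₁ → MuZero p L) := by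
      intro L₁ L hT p hp hSm
      refine ⟨hSm, fun hFW hA => ?_⟩
      obtain ⟨h₁, h₂, hL, -⟩ := hT
      have fdC : FiniteDimensional ℚ ↥(K ⊔ B (n + 1)) := by
        have : FiniteDimensional ℚ (B (n + 1)) := (LAY_thm l (n + 1) (B (n + 1)) (hlay _)).1
        exact IntermediateField.finiteDimensional_sup K (B (n + 1))
      have fdL₁ : FiniteDimensional ℚ L₁ := FiniteDimensional.of_injective
        (IntermediateField.inclusion (h₂.trans hL)).toLinearMap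
        (IntermediateField.inclusion (h₂.trans hL)).toRingHom.injective
      exact mu_of hFW l p hp L₁ L (B (n - a)) hA (n - a) (hlay _) hSm
    refine ⟨fun L₁ L hT p hp hor => ?_, ?_⟩
    · refine key L₁ L hT p hp (h5 L₁ L hT p hp ?_)
      rcases hor with ⟨e1, e2, e3, e4⟩ | h
      · exact Or.inl ⟨e1, hp, e2, e3, e4⟩
      · exact Or.inr h
    · exact PDGE_thm _ _ ∅ _ h6 fun p hp hpp _ L₁ L hT => key L₁ L hT p hpp (hp L₁ L hT)
  · intro k h2 hi h4 h3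
    obtain ⟨S, hS⟩ := hC k h2 hi h4 h3
    refine ⟨S, ?_⟩
    intro K fdK h hG hab l hl B hlay hmono X
    obtain ⟨n₁, h1⟩ := allp (S := {p : ℕ | p.Prime ∧ p ∉ S ∧
      ¬ p ∣ Module.finrank k (extendScalars h) ∧
      ∀ Q : Ideal (𝓞 K), Q.IsPrime → (p : 𝓞 K) ∈ Q → (p : 𝓞 K) ∉ Q ^ 2}) (B := B) h hmono (by
        rintro p ⟨hp, hpS, hpd, hram⟩
        exact thm_of k K h hG hab p (hS p hp hpS) hpd hram l hl B hlay) X
    exact ⟨n₁, fun N n hN hn p hp hpX hpS hpd hram L hkL hL =>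
      h1 N hN n hn p hpX ⟨hp, hpS, hpd, hram⟩ L hkL hL⟩
  · intro k K fdK h hG hab l hl B hlay hmono s hs N n hNn
    have hlF : Fact l.Prime := ⟨hl⟩
    have hB : Twr l k K B := ⟨h, hG, hab, hlay, hmono⟩
    have hfL : ∀ n, FiniteDimensional ℚ ↥(K ⊔ B n) := fun n => by
      have : FiniteDimensional ℚ (B n) := (LAY_thm l n (B n) (hlay n)).1
      exact IntermediateField.finiteDimensional_sup K (B n)
    exact ⟨fun L hkL hL p hp hpl hpd hord =>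
      expl l k K B hB s hs p hp hpl N n hord L hkL hL (Or.inr hpd),
      den l k K B hB s hs N n hNn⟩
  · exact finalD

end Pool.Agent.TWD
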