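import Pool.Agent.TWD.T2R

/-!
# TWD: the theorem without a condition at `p` (helper11)
-/

set_option autoImplicit false

open NumberField IntermediateField

namespace Pool.Agent.TWD

open Pool.Agent.RI

/-- The theorem, from Theorem C without a condition at `p`. -/
theorem t2Q (hC : ∀ k : IntermediateField ℚ ℂ, Module.finrank ℚ k = 2 →
      (∃ z ∈ k, (starRingEnd ℂ) z ≠ z) → (∀ z ∈ k, z ^ 2 ≠ -1) → (∀ z ∈ k, z ^ 2 ≠ -3) →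
      ∃ S : Finset ℕ, ∀ p : ℕ, p.Prime → p ∉ S → StR (fun _ => True) k p) :
    -- (1), (2)
    (∀ k : IntermediateField ℚ ℂ, Module.finrank ℚ k = 2 → (∃ z ∈ k, (starRingEnd ℂ) z ≠ z) →
      (∀ z ∈ k, z ^ 2 ≠ -1) → (∀ z ∈ k, z ^ 2 ≠ -3) → ∃ S : Finset ℕ,
      ∀ (K : IntermediateField ℚ ℂ) [FiniteDimensional ℚ K] (h : k ≤ K),
      IsGalois k (extendScalars h) →
      (∀ σ τ : (extendScalars h) ≃ₐ[k] (extendScalars h), σ * τ = τ * σ) →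
      ∀ l : ℕ, (l = 2 ∨ l = 3) → ∀ B : ℕ → IntermediateField ℚ ℂ, (∀ n, IsLayer l n (B n)) →
      Monotone B →
      (∀ a s : ℕ, ¬ l ^ (a + 1) ∣ Module.finrank k (extendScalars h) →
        ¬ l ^ (s + 1) ∣ Module.finrank ℚ (normalClosure ℚ K ℂ) →
        ∀ X : ℕ, ∃ n₁ : ℕ, ∀ n : ℕ, n₁ ≤ n →
          (∀ L₁ L : IntermediateField ℚ ℂ, Twist l k K B n L₁ L → ∀ p : ℕ, p.Prime →
            ((p ≤ X ∧ p ∉ S) ∨
            (p ≠ l ∧ ¬ p ∣ classNo L ∧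
              ¬ p ^ (2 * (l - 1) * l ^ s) ≡ 1 [MOD l ^ (n - a + 2)])) →
            Same p L (L₁ ⊔ B (n - a)) ∧ (FerreroWashington → AbelianQ L₁ → MuZero p L)) ∧
          DensityGE {p : ℕ | ∀ L₁ L : IntermediateField ℚ ℂ, Twist l k K B n L₁ L →
            Same p L (L₁ ⊔ B (n - a)) ∧ (FerreroWashington → AbelianQ L₁ → MuZero p L)}
            (1 - (l : ℝ) ^ (s + a) / (l : ℝ) ^ (n + 1))) ∧
      ∀ X : ℕ, ∃ n₁ : ℕ, ∀ N n : ℕ, n₁ ≤ N → N ≤ n → ∀ p : ℕ, p.Prime → p ≤ X → p ∉ S →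
        ∀ L : IntermediateField ℚ ℂ, k ≤ L → L ≤ K ⊔ B n →
          Same p L (L ⊓ (K ⊔ B N))) ∧
    -- (3)
    (∀ (k K : IntermediateField ℚ ℂ) [FiniteDimensional ℚ K] (h : k ≤ K),
      IsGalois k (extendScalars h) →
      (∀ σ τ : (extendScalars h) ≃ₐ[k] (extendScalars h), σ * τ = τ * σ) →
      ∀ l : ℕ, l.Prime → ∀ B : ℕ → IntermediateField ℚ ℂ, (∀ n, IsLayer l n (B n)) →
      Monotone B → ∀ s : ℕ, ¬ l ^ (s + 1) ∣ Module.finrank ℚ (normalClosure ℚ K ℂ) →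
      ∀ N n : ℕ, N ≤ n →
        (∀ L : IntermediateField ℚ ℂ, k ≤ L → L ≤ K ⊔ B n → ∀ p : ℕ, p.Prime → p ≠ l →
          ¬ p ∣ classNo L → ¬ p ^ (2 * (l - 1) * l ^ s) ≡ 1 [MOD l ^ (N + 2)] →
          Same p L (L ⊓ (K ⊔ B N))) ∧
        DensityGE {p : ℕ | ∀ L : IntermediateField ℚ ℂ, k ≤ L → L ≤ K ⊔ B n →
          Same p L (L ⊓ (K ⊔ B N))} (1 - (l : ℝ) ^ s / (l : ℝ) ^ (N + 1))) ∧
    -- (4)
    (∀ (F K L : IntermediateField ℚ ℂ) [FiniteDimensional ℚ L] (hFK : F ≤ K) (_hKL : K ≤ L),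
      IsGalois ℚ L → IsGalois F (extendScalars hFK) →
      DensityGE {p : ℕ | Same p K F}
        ((Nat.card {g : L ≃ₐ[ℚ] L // Good F K L g} : ℝ) / Nat.card (L ≃ₐ[ℚ] L))) ∧
    -- (5)
    (∀ (k K : IntermediateField ℚ ℂ) [FiniteDimensional ℚ K] (h : k ≤ K),
      IsGalois k (extendScalars h) → IsCyclic ((extendScalars h) ≃ₐ[k] (extendScalars h)) →
      ¬ AbelianQ K → ∀ l a : ℕ, l.Prime → Module.finrank k (extendScalars h) = l ^ a →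
      ∀ B : ℕ → IntermediateField ℚ ℂ, (∀ n, IsLayer l n (B n)) → Monotone B →
      ∃ n₁ : ℕ, ∀ n : ℕ, n₁ ≤ n → ∃ L : IntermediateField ℚ ℂ,
        Twist l k K B n k L ∧ ¬ AbelianQ L) := by
  obtain ⟨h1, h3, h4, h5⟩ := t2R (fun _ _ => True) (fun _ _ _ _ _ h => h) hC
  refine ⟨fun k k1 k2 k3 k4 => ?_, h3, h4, h5⟩
  obtain ⟨S, hS⟩ := h1 k k1 k2 k3 k4
  refine ⟨S, fun K fdK h hG hab l hl B hlay hmono => ?_⟩
  obtain ⟨g1, g2⟩ := hS K h hG hab l hl B hlay hmono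
  refine ⟨fun a s ha hs X => ?_, fun X => ?_⟩
  · obtain ⟨n₁, hn⟩ := g1 a s ha hs X
    refine ⟨n₁, fun n hn' => ⟨fun L₁ L hT p hp hor => (hn n hn').1 L₁ L hT p hp ?_, (hn n hn').2⟩⟩
    rcases hor with ⟨e1, e2⟩ | h
    · exact Or.inl ⟨e1, e2, trivial⟩
    · exact Or.inr h
  · obtain ⟨n₁, hn⟩ := g2 X
    exact ⟨n₁, fun N n hN hNn p hp hpX hpS L hkL hL => hn N n hN hNn p hp hpX hpS trivial L hkL hL⟩

end Pool.Agent.TWD
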