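import Pool.Agent.TWD.PRT

/-!
# TWD: the theorem on all primes `p ≤ X` and almost all primes, any degree (helper11)
-/

set_option autoImplicit false

open NumberField IntermediateField

namespace Pool.Agent.TWD

open Pool.Agent.MU3 Pool.Agent.RI Pool.Agent.RID Pool.Agent.TWF

/-- The theorem, from Theorem C with a condition `R p K` on the fields `K`. -/
theorem t2R (R : ℕ → IntermediateField ℚ ℂ → Prop)
    (hRs : ∀ (p : ℕ) (K' K : IntermediateField ℚ ℂ), K' ≤ K → FiniteDimensional ℚ K →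
      R p K → R p K')
    (hC : ∀ k : IntermediateField ℚ ℂ, Module.finrank ℚ k = 2 →
      (∃ z ∈ k, (starRingEnd ℂ) z ≠ z) → (∀ z ∈ k, z ^ 2 ≠ -1) → (∀ z ∈ k, z ^ 2 ≠ -3) →
      ∃ S : Finset ℕ, ∀ p : ℕ, p.Prime → p ∉ S → StR (R p) k p) :
    -- (1), (2)
    (∀ k : IntermediateField ℚ ℂ, Module.finrank ℚ k = 2 → (∃ z ∈ k, (starRingEnd ℂ) z ≠ z) →
      (∀ z ∈ k, z ^ 2 ≠ -1) → (∀ z ∈ k, z ^ 2 ≠ -3) → ∃ S : Finset ℕ,
      ∀ (K : IntermediateField ℚ ℂ) [FiniteDimensional ℚ K] (h : k ≤ K),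
      IsGalois k (extendScalars h) →
      (∀ σ τ : (extendScalars h) ≃ₐ[k] (extendScalars h), σ * τ = τ * σ) →
      ∀ l : ℕ, (l = 2 ∨ l = 3) → ∀ B : ℕ → IntermediateField ℚ ℂ, (∀ n, IsLayer l n (B n)) →
      Monotone B →
      (∀ a s : ℕ, ¬ l ^ (a + 1) ∣ Module.finrank k (extendScalars h) →
        ¬ l ^ (s + 1) ∣ Module.finrank ℚ (normalClosure ℚ K ℂ) →
        ∀ X : ℕ, ∃ n₁ : ℕ, ∀ n : ℕ, n₁ ≤ n →
          (∀ L₁ L : IntermediateField ℚ ℂ, Twist l k K B n L₁ L → ∀ p : ℕ, p.Prime →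
            ((p ≤ X ∧ p ∉ S ∧ R p K) ∨
            (p ≠ l ∧ ¬ p ∣ classNo L ∧
              ¬ p ^ (2 * (l - 1) * l ^ s) ≡ 1 [MOD l ^ (n - a + 2)])) →
            Same p L (L₁ ⊔ B (n - a)) ∧ (FerreroWashington → AbelianQ L₁ → MuZero p L)) ∧
          DensityGE {p : ℕ | ∀ L₁ L : IntermediateField ℚ ℂ, Twist l k K B n L₁ L →
            Same p L (L₁ ⊔ B (n - a)) ∧ (FerreroWashington → AbelianQ L₁ → MuZero p L)}
            (1 - (l : ℝ) ^ (s + a) / (l : ℝ) ^ (n + 1))) ∧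
      ∀ X : ℕ, ∃ n₁ : ℕ, ∀ N n : ℕ, n₁ ≤ N → N ≤ n → ∀ p : ℕ, p.Prime → p ≤ X → p ∉ S →
        R p K → ∀ L : IntermediateField ℚ ℂ, k ≤ L → L ≤ K ⊔ B n →
          Same p L (L ⊓ (K ⊔ B N))) ∧
    -- (3)
    (∀ (k K : IntermediateField ℚ ℂ) [FiniteDimensional ℚ K] (h : k ≤ K),
      IsGalois k (extendScalars h) →
      (∀ σ τ : (extendScalars h) ≃ₐ[k] (extendScalars h), σ * τ = τ * σ) →
      ∀ l : ℕ, l.Prime → ∀ B : ℕ → IntermediateField ℚ ℂ, (∀ n, IsLayer l n (B n)) →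
      Monotone B → ∀ s : ℕ, ¬ l ^ (s + 1) ∣ Module.finrank ℚ (normalClosure ℚ K ℂ) →
      ∀ N n : ℕ, N ≤ n →
        (∀ L : IntermediateField ℚ ℂ, k ≤ L → L ≤ K ⊔ B n → ∀ p : ℕ, p.Prime → p ≠ l →
          ¬ p ∣ classNo L → ¬ p ^ (2 * (l - 1) * l ^ s) ≡ 1 [MOD l ^ (N + 2)] →
          Same p L (L ⊓ (K ⊔ B N))) ∧
        DensityGE {p : ℕ | ∀ L : IntermediateField ℚ ℂ, k ≤ L → L ≤ K ⊔ B n →
          Same p L (L ⊓ (K ⊔ B N))} (1 - (l : ℝ) ^ s / (l : ℝ) ^ (N + 1))) ∧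
    -- (4)
    (∀ (F K L : IntermediateField ℚ ℂ) [FiniteDimensional ℚ L] (hFK : F ≤ K) (_hKL : K ≤ L),
      IsGalois ℚ L → IsGalois F (extendScalars hFK) →
      DensityGE {p : ℕ | Same p K F}
        ((Nat.card {g : L ≃ₐ[ℚ] L // Good F K L g} : ℝ) / Nat.card (L ≃ₐ[ℚ] L))) ∧
    -- (5)
    (∀ (k K : IntermediateField ℚ ℂ) [FiniteDimensional ℚ K] (h : k ≤ K),
      IsGalois k (extendScalars h) → IsCyclic ((extendScalars h) ≃ₐ[k] (extendScalars h)) →
      ¬ AbelianQ K → ∀ l a : ℕ, l.Prime → Module.finrank k (extendScalars h) = l ^ a →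
      ∀ B : ℕ → IntermediateField ℚ ℂ, (∀ n, IsLayer l n (B n)) → Monotone B →
      ∃ n₁ : ℕ, ∀ n : ℕ, n₁ ≤ n → ∃ L : IntermediateField ℚ ℂ,
        Twist l k K B n k L ∧ ¬ AbelianQ L) := by
  refine ⟨?_, ?_, finalD, ?_⟩
  · intro k h2 hi h4 h3
    obtain ⟨S, hS⟩ := hC k h2 hi h4 h3
    refine ⟨insert 2 (insert 3 S), ?_⟩
    intro K fdK h hG hab l hl B hlay hmono
    refine ⟨?_, ?_⟩
    · intro a s ha hs X
      have hlp : l.Prime := by
        rcases hl with rfl | rfl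
        · exact Nat.prime_two
        · exact Nat.prime_three
      have hlF : Fact l.Prime := ⟨hlp⟩
      have hB : Twr l k K B := ⟨h, hG, hab, hlay, hmono⟩
      obtain ⟨n₁, h1⟩ := main l k K B hB {p : ℕ | p.Prime ∧ p ∉ S ∧ p ≠ l ∧ R p K} (by
          rintro p ⟨hp, hpS, hpl, hR⟩
          exact thm_R (R p) (hRs p) k K h hG hab p hp (hS p hp hpS) hR l hl hpl B hlay hmono)
          a s ha hs X
      refine ⟨n₁, fun n hn => ?_⟩
      obtain ⟨h5, h6⟩ := h1 n hn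
      have key : ∀ L₁ L : IntermediateField ℚ ℂ, Twist l k K B n L₁ L → ∀ p : ℕ, p.Prime →
          Same p L (L₁ ⊔ B (n - a)) →
          Same p L (L₁ ⊔ B (n - a)) ∧ (FerreroWashington → AbelianQ L₁ → MuZero p L) := by
        intro L₁ L hT p hp hSm
        refine ⟨hSm, fun hFW hA => ?_⟩
        obtain ⟨h₁, h₂, hL, -⟩ := hT
        have fdC : FiniteDimensional ℚ ↥(K ⊔ B (n + 1)) := by
          have : FiniteDimensional ℚ (B (n + 1)) := (LAY_thm l (n + 1) (B (n + 1)) (hlay _)).1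
          exact IntermediateField.finiteDimensional_sup K (B (n + 1))
        have fdL₁ : FiniteDimensional ℚ L₁ := FiniteDimensional.of_injective
          (IntermediateField.inclusion (h₂.trans hL)).toLinearMap
          (IntermediateField.inclusion (h₂.trans hL)).toRingHom.injective
        exact mu_of hFW l p hp L₁ L (B (n - a)) hA (n - a) (hlay _) hSm
      refine ⟨fun L₁ L hT p hp hor => ?_, ?_⟩
      · refine key L₁ L hT p hp (h5 L₁ L hT p hp ?_)
        rcases hor with ⟨e1, e2, e3⟩ | h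
        · rw [Finset.mem_insert, Finset.mem_insert] at e2
          push Not at e2
          refine Or.inl ⟨e1, hp, e2.2.2, ?_, e3⟩
          rcases hl with rfl | rfl
          · exact e2.1
          · exact e2.2.1
        · exact Or.inr h
      · exact PDGE_thm _ _ ∅ _ h6 fun p hp hpp _ L₁ L hT => key L₁ L hT p hpp (hp L₁ L hT)
    · intro X
      obtain ⟨n₁, h1⟩ := allp (S := {p : ℕ | p.Prime ∧ p ∉ S ∧ p ≠ l ∧ R p K}) (B := B) h hmono (by
          rintro p ⟨hp, hpS, hpl, hR⟩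
          exact thm_R (R p) (hRs p) k K h hG hab p hp (hS p hp hpS) hR l hl hpl B hlay hmono) X
      refine ⟨n₁, fun N n hN hn p hp hpX hpS hR L hkL hL => ?_⟩
      rw [Finset.mem_insert, Finset.mem_insert] at hpS
      push Not at hpS
      have hpl : p ≠ l := by
        rcases hl with rfl | rfl
        · exact hpS.1
        · exact hpS.2.1
      exact h1 N hN n hn p hpX ⟨hp, hpS.2.2, hpl, hR⟩ L hkL hL
  · intro k K fdK h hG hab l hl B hlay hmono s hs N n hNn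
    have hlF : Fact l.Prime := ⟨hl⟩
    have hB : Twr l k K B := ⟨h, hG, hab, hlay, hmono⟩
    have hfL : ∀ n, FiniteDimensional ℚ ↥(K ⊔ B n) := fun n => by
      have : FiniteDimensional ℚ (B n) := (LAY_thm l n (B n) (hlay n)).1
      exact IntermediateField.finiteDimensional_sup K (B n)
    exact ⟨fun L hkL hL p hp hpl hpd hord =>
      expl l k K B hB s hs p hp hpl N n hord L hkL hL (Or.inr hpd),
      den l k K B hB s hs N n hNn⟩
  · intro k K fdK h hG hcyc hnA l a hl hd B hlay hmono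
    have hlF : Fact l.Prime := ⟨hl⟩
    have hab : ∀ σ τ : (extendScalars h) ≃ₐ[k] (extendScalars h), σ * τ = τ * σ := by
      let _ := IsCyclic.commGroup (α := (extendScalars h) ≃ₐ[k] (extendScalars h))
      exact fun a b => mul_comm a b
    exact twist_nonab l k K B ⟨h, hG, hab, hlay, hmono⟩ a hd hcyc hnA

end Pool.Agent.TWD
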