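import Pool.Agent.TWD.PRT

/-!
# TWD: the theorem on all primes `p ≤ X` and almost all primes, all levels `n' ≥ n` (helper11)
-/

set_option autoImplicit false

open NumberField IntermediateField

namespace Pool.Agent.TWD

open Pool.Agent.MU3 Pool.Agent.RI Pool.Agent.RID Pool.Agent.TWF

/-- the intersection of a twist of level `n' ≥ n` with `K B_(n-a)` -/
theorem twist_inf2 (l a : ℕ) [Fact l.Prime] (k K : IntermediateField ℚ ℂ)
    (B : ℕ → IntermediateField ℚ ℂ) [FiniteDimensional ℚ K] (hB : Twr l k K B)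
    (ha : ¬ l ^ (a + 1) ∣ Module.finrank k (IntermediateField.extendScalars hB.hk)) :
    ∃ n₁ : ℕ, a ≤ n₁ ∧ ∀ n : ℕ, n₁ ≤ n → ∀ n' : ℕ, n ≤ n' → ∀ L₁ L : IntermediateField ℚ ℂ,
      Twist l k K B n' L₁ L → L ⊓ (K ⊔ B (n - a)) = L₁ ⊔ B (n - a) := by
  have hl : l.Prime := Fact.out
  have hfL : ∀ n, FiniteDimensional ℚ ↥(K ⊔ B n) := fun n => by
    have : FiniteDimensional ℚ (B n) := (LAY_thm l n (B n) (hB.lay n)).1
    exact IntermediateField.finiteDimensional_sup K (B n)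
  obtain ⟨n₃, h3⟩ := grow l k K B hB
  have hK0 : Module.finrank k (IntermediateField.extendScalars hB.hk) ≠ 0 := by
    have h4 := finrank_algC hB.hk
    let i1 : Algebra k K := algC hB.hk
    have : IsScalarTower ℚ k K := IsScalarTower.of_algebraMap_eq (fun _ => rfl)
    have : FiniteDimensional k K := Module.Finite.of_restrictScalars_finite ℚ k K
    rw [← h4]
    exact Module.finrank_pos.ne'
  obtain ⟨a', r, hr, har⟩ := Nat.exists_eq_pow_mul_and_not_dvd hK0 l hl.ne_one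
  have ha' : a' ≤ a := by
    by_contra h
    push Not at h
    apply ha
    rw [har]
    exact (pow_dvd_pow l h).mul_right r
  refine ⟨n₃ + a + 1, by omega, fun n hn n' hn' L₁ L hT => ?_⟩
  obtain ⟨h₁, h₂, hL, hnL, hcyc, hd, e, he⟩ := hT
  exact cor2 l a r (n - a) hr k K B hB (by
    rw [har]
    exact Nat.mul_dvd_mul (pow_dvd_pow l ha') dvd_rfl) (h3 _ (by omega)) (n' + 1) (by omega) L
    (h₁.trans h₂) hL hcyc hnL L₁ h₁ h₂ e (dvd_of_eq he) hd

/-- All primes `p ≤ X` of the set `S`, the primes with the explicit condition, and a set of density close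
to `1`, for the twists of the levels `n' ≥ n`. -/
theorem main2 (l : ℕ) [Fact l.Prime] (k K : IntermediateField ℚ ℂ)
    (B : ℕ → IntermediateField ℚ ℂ) [FiniteDimensional ℚ K] (hB : Twr l k K B) (S : Set ℕ)
    (hS : ∀ p ∈ S, Thm k K B p) (a s : ℕ)
    (ha : ¬ l ^ (a + 1) ∣ Module.finrank k (IntermediateField.extendScalars hB.hk))
    (hs : ¬ l ^ (s + 1) ∣ Module.finrank ℚ (IntermediateField.normalClosure ℚ K ℂ)) (X : ℕ) :
    ∃ n₁ : ℕ, ∀ n : ℕ, n₁ ≤ n →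
      (∀ n' : ℕ, n ≤ n' → ∀ L₁ L : IntermediateField ℚ ℂ, Twist l k K B n' L₁ L →
        ∀ p : ℕ, p.Prime → ((p ≤ X ∧ p ∈ S) ∨ (p ≠ l ∧ ¬ p ∣ classNo L ∧
          ¬ p ^ (2 * (l - 1) * l ^ s) ≡ 1 [MOD l ^ (n - a + 2)])) →
        Same p L (L₁ ⊔ B (n - a))) ∧
      ∀ M : ℕ, DensityGE {p : ℕ | ∀ n' : ℕ, n ≤ n' → n' ≤ M → ∀ L₁ L : IntermediateField ℚ ℂ,
        Twist l k K B n' L₁ L → Same p L (L₁ ⊔ B (n - a))}
        (1 - (l : ℝ) ^ (s + a) / (l : ℝ) ^ (n + 1)) := by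
  have hl : l.Prime := Fact.out
  have hfL : ∀ n, FiniteDimensional ℚ ↥(K ⊔ B n) := fun n => by
    have : FiniteDimensional ℚ (B n) := (LAY_thm l n (B n) (hB.lay n)).1
    exact IntermediateField.finiteDimensional_sup K (B n)
  obtain ⟨n₂, h2⟩ := allp hB.hk hB.mono hS X
  obtain ⟨n₄, hn₄, h4⟩ := twist_inf2 l a k K B hB ha
  refine ⟨n₂ + n₄ + a, fun n hn => ⟨?_, ?_⟩⟩
  · intro n' hn' L₁ L hT p hp hor
    rw [← h4 n (by omega) n' hn' L₁ L hT]
    obtain ⟨h₁, h₂, hL, hnL, hcyc, hd, e, he⟩ := hT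
    rcases hor with ⟨hpX, hpS⟩ | ⟨hpl, hpd, hord⟩
    · exact h2 (n - a) (by omega) (n' + 1) (by omega) p hpX hpS L (h₁.trans h₂) hL
    · exact expl l k K B hB s hs p hp hpl (n - a) (n' + 1) hord L (h₁.trans h₂) hL (Or.inr hpd)
  · intro M
    have h5 := den l k K B hB s hs (n - a) (max n M + 1) (by omega)
    have h6 : (1 : ℝ) - (l : ℝ) ^ (s + a) / (l : ℝ) ^ (n + 1) =
        1 - (l : ℝ) ^ s / (l : ℝ) ^ (n - a + 1) := by
      have hlpos : (0 : ℝ) < l := by exact_mod_cast hl.pos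
      congr 1
      rw [div_eq_div_iff (pow_pos hlpos _).ne' (pow_pos hlpos _).ne', ← pow_add, ← pow_add]
      congr 1
      omega
    rw [h6]
    refine PDGE_thm _ _ ∅ _ h5 fun p hp _ _ n' hn' hM L₁ L hT => ?_
    rw [← h4 n (by omega) n' hn' L₁ L hT]
    obtain ⟨h₁, h₂, hL, hnL, hcyc, hd, e, he⟩ := hT
    refine hp L (h₁.trans h₂) (hL.trans (sup_le_sup_left (hB.mono ?_) K))
    omega

/-- The theorem, from Theorem C with a condition `R p K` on the fields `K`. -/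
theorem t2X (R : ℕ → IntermediateField ℚ ℂ → Prop)
    (hRs : ∀ (p : ℕ) (K' K : IntermediateField ℚ ℂ), K' ≤ K → FiniteDimensional ℚ K →
      R p K → R p K')
    (hC : ∀ k : IntermediateField ℚ ℂ, Module.finrank ℚ k = 2 →
      (∃ z ∈ k, (starRingEnd ℂ) z ≠ z) → (∀ z ∈ k, z ^ 2 ≠ -1) → (∀ z ∈ k, z ^ 2 ≠ -3) →
      ∃ S : Finset ℕ, ∀ p : ℕ, p.Prime → p ∉ S → StR (R p) k p) :
    -- (1), (2)
    (∀ k : IntermediateField ℚ ℂ, Module.finrank ℚ k = 2 → (∃ z ∈ k, (starRingEnd ℂ) z ≠ z) →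
      (∀ z ∈ k, z ^ 2 ≠ -1) → (∀ z ∈ k, z ^ 2 ≠ -3) → ∃ S : Finset ℕ,
      ∀ (K : IntermediateField ℚ ℂ) [FiniteDimensional ℚ K] (h : k ≤ K),
      IsGalois k (extendScalars h) →
      (∀ σ τ : (extendScalars h) ≃ₐ[k] (extendScalars h), σ * τ = τ * σ) →
      ∀ l : ℕ, (l = 2 ∨ l = 3) → ∀ B : ℕ → IntermediateField ℚ ℂ, (∀ n, IsLayer l n (B n)) →
      Monotone B →
      (∀ a s : ℕ, ¬ l ^ (a + 1) ∣ Module.finrank k (extendScalars h) →
        ¬ l ^ (s + 1) ∣ Module.finrank ℚ (normalClosure ℚ K ℂ) →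
        ∀ X : ℕ, ∃ n₁ : ℕ, ∀ n : ℕ, n₁ ≤ n →
          (∀ n' : ℕ, n ≤ n' → ∀ L₁ L : IntermediateField ℚ ℂ, Twist l k K B n' L₁ L →
            ∀ p : ℕ, p.Prime →
            ((p ≤ X ∧ p ∉ S ∧ R p K) ∨
            (p ≠ l ∧ ¬ p ∣ classNo L ∧
              ¬ p ^ (2 * (l - 1) * l ^ s) ≡ 1 [MOD l ^ (n - a + 2)])) →
            Same p L (L₁ ⊔ B (n - a)) ∧ (FerreroWashington → AbelianQ L₁ → MuZero p L)) ∧
          ∀ M : ℕ, DensityGE {p : ℕ | ∀ n' : ℕ, n ≤ n' → n' ≤ M →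
            ∀ L₁ L : IntermediateField ℚ ℂ, Twist l k K B n' L₁ L →
            Same p L (L₁ ⊔ B (n - a)) ∧ (FerreroWashington → AbelianQ L₁ → MuZero p L)}
            (1 - (l : ℝ) ^ (s + a) / (l : ℝ) ^ (n + 1))) ∧
      ∀ X : ℕ, ∃ n₁ : ℕ, ∀ N n : ℕ, n₁ ≤ N → N ≤ n → ∀ p : ℕ, p.Prime → p ≤ X → p ∉ S →
        R p K → ∀ L : IntermediateField ℚ ℂ, k ≤ L → L ≤ K ⊔ B n →
          Same p L (L ⊓ (K ⊔ B N))) ∧
    -- (3)
    (∀ (k K : IntermediateField ℚ ℂ) [FiniteDimensional ℚ K] (h : k ≤ K),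
      IsGalois k (extendScalars h) →
      (∀ σ τ : (extendScalars h) ≃ₐ[k] (extendScalars h), σ * τ = τ * σ) →
      ∀ l : ℕ, l.Prime → ∀ B : ℕ → IntermediateField ℚ ℂ, (∀ n, IsLayer l n (B n)) →
      Monotone B → ∀ s : ℕ, ¬ l ^ (s + 1) ∣ Module.finrank ℚ (normalClosure ℚ K ℂ) →
      ∀ N n : ℕ, N ≤ n →
        (∀ L : IntermediateField ℚ ℂ, k ≤ L → L ≤ K ⊔ B n → ∀ p : ℕ, p.Prime → p ≠ l →
          ¬ p ∣ classNo L → ¬ p ^ (2 * (l - 1) * l ^ s) ≡ 1 [MOD l ^ (N + 2)] →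
          Same p L (L ⊓ (K ⊔ B N))) ∧
        DensityGE {p : ℕ | ∀ L : IntermediateField ℚ ℂ, k ≤ L → L ≤ K ⊔ B n →
          Same p L (L ⊓ (K ⊔ B N))} (1 - (l : ℝ) ^ s / (l : ℝ) ^ (N + 1))) ∧
    -- (4)
    (∀ (F K L : IntermediateField ℚ ℂ) [FiniteDimensional ℚ L] (hFK : F ≤ K) (_hKL : K ≤ L),
      IsGalois ℚ L → IsGalois F (extendScalars hFK) →
      DensityGE {p : ℕ | Same p K F}
        ((Nat.card {g : L ≃ₐ[ℚ] L // Good F K L g} : ℝ) / Nat.card (L ≃ₐ[ℚ] L))) ∧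
    -- (5)
    (∀ (k K : IntermediateField ℚ ℂ) [FiniteDimensional ℚ K] (h : k ≤ K),
      IsGalois k (extendScalars h) → IsCyclic ((extendScalars h) ≃ₐ[k] (extendScalars h)) →
      ¬ AbelianQ K → ∀ l a : ℕ, l.Prime → Module.finrank k (extendScalars h) = l ^ a →
      ∀ B : ℕ → IntermediateField ℚ ℂ, (∀ n, IsLayer l n (B n)) → Monotone B →
      ∃ n₁ : ℕ, ∀ n : ℕ, n₁ ≤ n → ∃ L : IntermediateField ℚ ℂ,
        Twist l k K B n k L ∧ ¬ AbelianQ L) := by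
  refine ⟨?_, ?_, finalD, ?_⟩
  · intro k h2 hi h4 h3
    obtain ⟨S, hS⟩ := hC k h2 hi h4 h3
    refine ⟨insert 2 (insert 3 S), ?_⟩
    intro K fdK h hG hab l hl B hlay hmono
    refine ⟨?_, ?_⟩
    · intro a s ha hs X
      have hlp : l.Prime := by
        rcases hl with rfl | rfl
        · exact Nat.prime_two
        · exact Nat.prime_three
      have hlF : Fact l.Prime := ⟨hlp⟩
      have hB : Twr l k K B := ⟨h, hG, hab, hlay, hmono⟩
      obtain ⟨n₁, h1⟩ := main2 l k K B hB {p : ℕ | p.Prime ∧ p ∉ S ∧ p ≠ l ∧ R p K} (by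
          rintro p ⟨hp, hpS, hpl, hR⟩
          exact thm_R (R p) (hRs p) k K h hG hab p hp (hS p hp hpS) hR l hl hpl B hlay hmono)
          a s ha hs X
      refine ⟨n₁, fun n hn => ?_⟩
      obtain ⟨h5, h6⟩ := h1 n hn
      have key : ∀ (n' : ℕ) (L₁ L : IntermediateField ℚ ℂ), Twist l k K B n' L₁ L → ∀ p : ℕ,
          p.Prime → Same p L (L₁ ⊔ B (n - a)) →
          Same p L (L₁ ⊔ B (n - a)) ∧ (FerreroWashington → AbelianQ L₁ → MuZero p L) := by
        intro n' L₁ L hT p hp hSm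
        refine ⟨hSm, fun hFW hA => ?_⟩
        obtain ⟨h₁, h₂, hL, -⟩ := hT
        have fdC : FiniteDimensional ℚ ↥(K ⊔ B (n' + 1)) := by
          have : FiniteDimensional ℚ (B (n' + 1)) := (LAY_thm l (n' + 1) (B (n' + 1)) (hlay _)).1
          exact IntermediateField.finiteDimensional_sup K (B (n' + 1))
        have fdL₁ : FiniteDimensional ℚ L₁ := FiniteDimensional.of_injective
          (IntermediateField.inclusion (h₂.trans hL)).toLinearMap
          (IntermediateField.inclusion (h₂.trans hL)).toRingHom.injective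
        exact mu_of hFW l p hp L₁ L (B (n - a)) hA (n - a) (hlay _) hSm
      refine ⟨fun n' hn' L₁ L hT p hp hor => ?_, fun M => ?_⟩
      · refine key n' L₁ L hT p hp (h5 n' hn' L₁ L hT p hp ?_)
        rcases hor with ⟨e1, e2, e3⟩ | h
        · rw [Finset.mem_insert, Finset.mem_insert] at e2
          push Not at e2
          refine Or.inl ⟨e1, hp, e2.2.2, ?_, e3⟩
          rcases hl with rfl | rfl
          · exact e2.1
          · exact e2.2.1
        · exact Or.inr h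
      · exact PDGE_thm _ _ ∅ _ (h6 M) fun p hp hpp _ n' hn' hM L₁ L hT =>
          key n' L₁ L hT p hpp (hp n' hn' hM L₁ L hT)
    · intro X
      obtain ⟨n₁, h1⟩ := allp (S := {p : ℕ | p.Prime ∧ p ∉ S ∧ p ≠ l ∧ R p K}) (B := B) h hmono (by
          rintro p ⟨hp, hpS, hpl, hR⟩
          exact thm_R (R p) (hRs p) k K h hG hab p hp (hS p hp hpS) hR l hl hpl B hlay hmono) X
      refine ⟨n₁, fun N n hN hn p hp hpX hpS hR L hkL hL => ?_⟩
      rw [Finset.mem_insert, Finset.mem_insert] at hpS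
      push Not at hpS
      have hpl : p ≠ l := by
        rcases hl with rfl | rfl
        · exact hpS.1
        · exact hpS.2.1
      exact h1 N hN n hn p hpX ⟨hp, hpS.2.2, hpl, hR⟩ L hkL hL
  · intro k K fdK h hG hab l hl B hlay hmono s hs N n hNn
    have hlF : Fact l.Prime := ⟨hl⟩
    have hB : Twr l k K B := ⟨h, hG, hab, hlay, hmono⟩
    have hfL : ∀ n, FiniteDimensional ℚ ↥(K ⊔ B n) := fun n => by
      have : FiniteDimensional ℚ (B n) := (LAY_thm l n (B n) (hlay n)).1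
      exact IntermediateField.finiteDimensional_sup K (B n)
    exact ⟨fun L hkL hL p hp hpl hpd hord =>
      expl l k K B hB s hs p hp hpl N n hord L hkL hL (Or.inr hpd),
      den l k K B hB s hs N n hNn⟩
  · intro k K fdK h hG hcyc hnA l a hl hd B hlay hmono
    have hlF : Fact l.Prime := ⟨hl⟩
    have hab : ∀ σ τ : (extendScalars h) ≃ₐ[k] (extendScalars h), σ * τ = τ * σ := by
      let _ := IsCyclic.commGroup (α := (extendScalars h) ≃ₐ[k] (extendScalars h))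
      exact fun a b => mul_comm a b
    exact twist_nonab l k K B ⟨h, hG, hab, hlay, hmono⟩ a hd hcyc hnA

end Pool.Agent.TWD
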